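import Pool.Agent.Lib.MP_1a91b9_ntW.C.LocL
import Pool.Agent.Lib.MP_1a91b9_ntW.R.Defs8
import Pool.Agent.Lib.MP_1a91b9_ntV.C.Plc

/-!
# MP_1a91b9_nt, `ℚ(√-2)`, part C: the row of the place `lam`
-/

set_option autoImplicit false
set_option linter.unusedSectionVars false
set_option linter.unusedVariables false

namespace Pool.Agent.Lib.MP_1a91b9_ntW.C

open NumberField Finset WithZero IsDedekindDomain
open Pool.Agent.Lib.MP_1a91b9_ntW
open Pool.Agent.Lib.MP_1a91b9_ntH.C (Sq exists_nu isSquare_exp nu_one)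
open Pool.Agent.Lib.MP_1a91b9_ntV.C (pv pv_self pv_one pv_lt pv_le_pow coe_ne)

noncomputable section

/-- the valuation of `lam` -/
def nuL : Valuation K8 ℤᵐ⁰ := (pv lam lam_prime).valuation K8

/-- `√-2` in `K8` -/
def z8 : K8 := ((lam : 𝓞 K8) : K8)

theorem z8_sq : z8 ^ 2 = -2 := by
  have h := congrArg (fun x : 𝓞 K8 => (x : K8)) lam_sq
  have e : (algebraMap (𝓞 K8) K8) 2 = 2 := map_ofNat _ 2
  simp only [map_pow, map_neg, e] at h
  exact h

theorem coe_two8 : (Algebra.cast (2 : 𝓞 K8) : K8) = 2 := map_ofNat (algebraMap (𝓞 K8) K8) 2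

theorem nuL_z : nuL z8 = exp (-1) := pv_self lam lam_prime

theorem nuL_O (x : 𝓞 K8) : nuL (x : K8) ≤ 1 := (pv lam lam_prime).valuation_le_one x

theorem nuL_le_pow {x : 𝓞 K8} (n : ℕ) : nuL (x : K8) ≤ exp (-(n : ℤ)) ↔ lam ^ n ∣ x :=
  pv_le_pow lam_prime n

theorem nuL_odd {x : 𝓞 K8} (h : ¬ lam ∣ x) : nuL (x : K8) = 1 := pv_one lam_prime h

theorem lam_dvd_sub {n d : 𝓞 K8} (hn : ¬ lam ∣ n) (hd : ¬ lam ∣ d) : lam ∣ n - d := by
  rw [lam_dvd_iff] at hn hd ⊢
  rw [cp_sub]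
  simp only [Prod.fst_sub]
  omega

/-- the residue field has two elements -/
theorem nuL_res (x : K8) (hx : nuL x = 1) : nuL (x - 1) < 1 := by
  obtain ⟨n, ⟨d, hd⟩, hnd⟩ :=
    HeightOneSpectrum.exists_primeCompl_mul_eq_of_integer (pv lam lam_prime) x hx.le
  have hnd' : x * (d : K8) = (n : K8) := hnd
  have hd' : ¬ lam ∣ d := fun hh => hd (Ideal.mem_span_singleton.2 hh)
  have hvd : nuL (d : K8) = 1 := pv_one lam_prime hd'
  have hn : ¬ lam ∣ n := by
    intro hh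
    have h1 : nuL (n : K8) < 1 := (pv_lt lam_prime).2 hh
    rw [← hnd', map_mul, hx, hvd, one_mul] at h1
    exact lt_irrefl _ h1
  have h2 : nuL ((n - d : 𝓞 K8) : K8) < 1 := (pv_lt lam_prime).2 (lam_dvd_sub hn hd')
  have e : ((n - d : 𝓞 K8) : K8) = (x - 1) * (d : K8) := by
    have e1 : ((n - d : 𝓞 K8) : K8) = (n : K8) - (d : K8) := by
      push_cast
      rfl
    rw [e1, ← hnd']
    ring
  rwa [e, map_mul, hvd, mul_one] at h2

/-- the integers are dense -/
theorem approx8 (n : ℕ) : ∀ x : K8, nuL x ≤ 1 → ∃ y : 𝓞 K8, nuL (x - (y : K8)) ≤ exp (-(n : ℤ)) := by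
  induction n with
  | zero =>
    intro x hx
    refine ⟨0, ?_⟩
    have e : x - ((0 : 𝓞 K8) : K8) = x := by
      rw [RingOfIntegers.coe_eq_algebraMap, map_zero, sub_zero]
    rw [e]
    simpa using hx
  | succ n ih =>
    intro x hx
    obtain ⟨t, ht, h | h⟩ := res_z z8_sq nuL_z nuL_res hx
    · obtain ⟨y, hy⟩ := ih t ht
      refine ⟨lam * y, ?_⟩
      have e : x - ((lam * y : 𝓞 K8) : K8) = z8 * (t - (y : K8)) := by
        rw [h]
        simp only [z8]
        push_cast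
        ring
      rw [e, map_mul, nuL_z]
      calc exp (-1) * nuL (t - (y : K8)) ≤ exp (-1) * exp (-(n : ℤ)) := by gcongr
        _ = exp (-((n + 1 : ℕ) : ℤ)) := by
          rw [← exp_add]
          congr 1
          push_cast
          ring
    · obtain ⟨y, hy⟩ := ih t ht
      refine ⟨1 + lam * y, ?_⟩
      have e : x - ((1 + lam * y : 𝓞 K8) : K8) = z8 * (t - (y : K8)) := by
        rw [h]
        simp only [z8]
        push_cast
        ring
      rw [e, map_mul, nuL_z]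
      calc exp (-1) * nuL (t - (y : K8)) ≤ exp (-1) * exp (-(n : ℤ)) := by gcongr
        _ = exp (-((n + 1 : ℕ) : ℤ)) := by
          rw [← exp_add]
          congr 1
          push_cast
          ring

theorem lam_pow5 : lam ^ 5 = 4 * lam := by
  rw [pow_succ, lam_pow4]

/-- the sign on residues -/
def sz (u v : ZMod 8) : ZMod 2 := if prz u v = true then 0 else 1

/-- the sign of an odd element -/
def sgn (x : 𝓞 K8) : ZMod 2 := sz (cz x).1 (cz x).2

theorem sgn_Pr {x : 𝓞 K8} (h : Pr x) : sgn x = 0 := if_pos h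

theorem sgn_neg' {x : 𝓞 K8} (h : Pr x) : sgn (-x) = 1 := if_neg (not_Pr_neg h)

theorem neg_odd {x : 𝓞 K8} (h : ¬ lam ∣ x) : ¬ lam ∣ -x := fun h1 => h ((dvd_neg).1 h1)

theorem sgn_neg {x : 𝓞 K8} (h : ¬ lam ∣ x) : sgn (-x) = sgn x + 1 := by
  rcases Pr_or_neg h with h1 | h1
  · rw [sgn_Pr h1, sgn_neg' h1, zero_add]
  · rw [sgn_Pr h1]
    have := sgn_neg' h1
    rw [neg_neg] at this
    rw [this]
    decide

theorem sgn_mul {x y : 𝓞 K8} (hx : ¬ lam ∣ x) (hy : ¬ lam ∣ y) : sgn (x * y) = sgn x + sgn y := by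
  have key : ∀ x y : 𝓞 K8, Pr x → Pr y → sgn (x * y) = sgn x + sgn y := fun x y hx hy => by
    rw [sgn_Pr hx, sgn_Pr hy, sgn_Pr (hx.mul hy), zero_add]
  have h2 : ∀ x : ZMod 2, x + 1 + 1 = x := by decide
  rcases Pr_or_neg hx with h1 | h1 <;> rcases Pr_or_neg hy with h3 | h3
  · exact key _ _ h1 h3
  · have h4 := key _ _ h1 h3
    rw [mul_neg, sgn_neg (lam_prime.not_dvd_mul hx hy), sgn_neg hy, ← add_assoc] at h4
    exact add_right_cancel h4
  · have h4 := key _ _ h1 h3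
    rw [neg_mul, sgn_neg (lam_prime.not_dvd_mul hx hy), sgn_neg hx, add_right_comm] at h4
    exact add_right_cancel h4
  · have h4 := key _ _ h1 h3
    rw [neg_mul_neg, sgn_neg hx, sgn_neg hy] at h4
    rw [h4]
    have : ∀ a b : ZMod 2, a + 1 + (b + 1) = a + b := by decide
    exact this _ _

theorem ll_mul' {x y : 𝓞 K8} (hx : ¬ lam ∣ x) (hy : ¬ lam ∣ y) : ll (x * y) = ll x + ll y := by
  have hxy := lam_prime.not_dvd_mul hx hy
  rcases Pr_or_neg hx with h1 | h1 <;> rcases Pr_or_neg hy with h3 | h3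
  · exact ll_mul h1 h3
  · have h4 := ll_mul h1 h3
    rwa [mul_neg, ll_neg hxy, ll_neg hy] at h4
  · have h4 := ll_mul h1 h3
    rwa [neg_mul, ll_neg hxy, ll_neg hx] at h4
  · have h4 := ll_mul h1 h3
    rwa [neg_mul_neg, ll_neg hx, ll_neg hy] at h4

/-- an odd element which is a square at `lam` -/
theorem sq_odd {c : 𝓞 K8} (hc : ¬ lam ∣ c) (h : Sq nuL (c : K8)) :
    Pr c ∧ aa c = 0 ∧ ll c = 0 := by
  have h4 := nu4_le z8_sq nuL_z
  obtain ⟨b, hb, h⟩ := h
  have hνb : nuL b ≠ 0 := nuL.ne_zero_iff.2 hb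
  have h1 : nuL ((c : K8) / b ^ 2) = 1 := nu_one h4 h
  have hvb : nuL b = 1 := by
    rw [map_div₀, map_pow, nuL_odd hc, div_eq_one_iff_eq (pow_ne_zero 2 hνb)] at h1
    exact (pow_eq_one_iff_of_nonneg zero_le two_ne_zero).1 h1.symm
  obtain ⟨y, hy⟩ := approx8 5 b hvb.le
  have hy1 : ¬ lam ∣ y := by
    intro h2
    have h3 : nuL (y : K8) < 1 := (pv_lt lam_prime).2 h2
    have h5 : nuL (b - (y : K8)) = 1 := by rw [nu_subl (by rw [hvb]; exact h3), hvb]
    rw [h5, ← exp_zero, exp_le_exp] at hy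
    norm_num at hy
  have h5 : nuL ((c - y ^ 2 : 𝓞 K8) : K8) ≤ exp (-((5 : ℕ) : ℤ)) := by
    have e : ((c - y ^ 2 : 𝓞 K8) : K8) = b ^ 2 * ((c : K8) / b ^ 2 - 1) +
        (b - (y : K8)) * (b + (y : K8)) := by
      have e1 : b ^ 2 * ((c : K8) / b ^ 2 - 1) = c - b ^ 2 := by field_simp
      rw [e1]
      push_cast
      ring
    rw [e]
    refine nuL.map_add_le ?_ ?_
    · rw [map_mul, map_pow, hvb, one_pow, one_mul]
      rw [nu4 z8_sq nuL_z] at h
      exact ltle h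
    · rw [map_mul]
      exact (mul_le_of_le_one_right' (nuL.map_add_le hvb.le (nuL_O y))).trans hy
  rw [nuL_le_pow, lam_pow5] at h5
  have hP : Pr (y ^ 2) := by
    rcases Pr_or_neg hy1 with h6 | h6
    · rw [pow_two]
      exact h6.mul h6
    · rw [← neg_sq, pow_two]
      exact h6.mul h6
  have hA : aa (y ^ 2) = 0 := by
    rcases Pr_or_neg hy1 with h6 | h6
    · rw [pow_two, aa_mul h6 h6]
      exact CharTwo.add_self_eq_zero _
    · rw [← neg_sq, pow_two, aa_mul h6 h6]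
      exact CharTwo.add_self_eq_zero _
  have hL : ll (y ^ 2) = 0 := by
    rw [pow_two, ll_mul' hy1 hy1]
    exact CharTwo.add_self_eq_zero _
  have h6 : (4 : 𝓞 K8) ∣ c - y ^ 2 := (Dvd.intro _ rfl).trans h5
  exact ⟨(Pr_congr h6).2 hP, by rw [aa_congr h6, hA], by rw [ll_congr h5, hL]⟩

/-! ### the finite computation -/

/-- the first factor -/
def sO (σ : 𝓞 K8) : 𝓞 K8 := 1 + 2 * lam - 2 * σ

/-- the second factor -/
def qO (σ : 𝓞 K8) : 𝓞 K8 := 1 - 2 * σ + lam * (σ * (1 - σ))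

theorem cz_add (x y : 𝓞 K8) : cz (x + y) = cz x + cz y := by
  rw [cz, cp_add]
  simp only [cz, Prod.fst_add, Prod.snd_add]
  push_cast
  rfl

theorem cz_sub (x y : 𝓞 K8) : cz (x - y) = cz x - cz y := by
  rw [cz, cp_sub]
  simp only [cz, Prod.fst_sub, Prod.snd_sub]
  push_cast
  rfl

theorem cz_lam : cz lam = (0, 1) := by
  rw [cz, cp_lam]
  simp

theorem cz_two : cz 2 = (2, 0) := by
  have : (2 : 𝓞 K8) = 1 + 1 := by norm_num
  rw [this, cz_add, cz_one]
  decide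

theorem cz_sO (σ : 𝓞 K8) : cz (sO σ) = (1 - 2 * (cz σ).1, 2 - 2 * (cz σ).2) := by
  rw [sO, cz_sub, cz_add, cz_mul, cz_mul, cz_one, cz_two, cz_lam]
  simp only [Prod.mk_add_mk]
  ext
  · simp
  · simp

theorem cz_qO (σ : 𝓞 K8) : cz (qO σ) =
    (1 - 2 * (cz σ).1 - 2 * ((cz σ).1 * (0 - (cz σ).2) + (cz σ).2 * (1 - (cz σ).1)),
      - 2 * (cz σ).2 + ((cz σ).1 * (1 - (cz σ).1) - 2 * ((cz σ).2 * (0 - (cz σ).2)))) := by
  rw [qO, cz_add, cz_sub, cz_mul, cz_mul, cz_mul, cz_sub, cz_one, cz_two, cz_lam]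
  ext
  · simp
    ring
  · simp

theorem sgn_cz (x : 𝓞 K8) : sgn x = sz (cz x).1 (cz x).2 := rfl

theorem chk (σ : 𝓞 K8) : ll (sO σ) + sgn (sO σ) + sgn (qO σ) = 1 := by
  rw [sgn_cz, sgn_cz, ll, cz_sO, cz_qO]
  generalize (cz σ).1 = a
  generalize (cz σ).2 = b
  revert a b
  decide +kernel

theorem sO_odd (σ : 𝓞 K8) : ¬ lam ∣ sO σ := by
  intro h
  have h1 : lam ∣ 1 := by
    have e : (1 : 𝓞 K8) = sO σ - 2 * (lam - σ) := by rw [sO]; ring
    rw [e]
    exact dvd_sub h (lam_dvd_two.mul_right _)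
  exact lam_not_unit (isUnit_of_dvd_one h1)

theorem qO_odd (σ : 𝓞 K8) : ¬ lam ∣ qO σ := by
  intro h
  have h1 : lam ∣ 1 := by
    have e : (1 : 𝓞 K8) = qO σ + 2 * σ - lam * (σ * (1 - σ)) := by rw [qO]; ring
    rw [e]
    exact dvd_sub (dvd_add h (lam_dvd_two.mul_right _)) (dvd_mul_right _ _)
  exact lam_not_unit (isUnit_of_dvd_one h1)

/-! ### the row -/

theorem coe_lam_pow (n : ℕ) : ((lam ^ n : 𝓞 K8) : K8) = z8 ^ n := by
  simp only [z8]
  push_cast
  rfl

/-- congruent units -/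
theorem Sq.congr2 {u v : K8} (h : Sq nuL u) (hu : nuL u = 1) (huv : nuL (v - u) ≤ exp (-5)) :
    Sq nuL v := by
  have hu0 : u ≠ 0 := by
    rintro rfl
    rw [map_zero] at hu
    exact zero_ne_one hu
  refine Sq.congr' (nu4_le z8_sq nuL_z) h ?_
  have e : v / u - 1 = (v - u) / u := by
    rw [sub_div, div_self hu0]
  rw [e, map_div₀, hu, div_one, nu4 z8_sq nuL_z]
  refine huv.trans_lt ?_
  rw [exp_lt_exp]
  norm_num

/-- the values of the elements `lam ^ v y` -/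
theorem par_v {m : K8} (hm : m ≠ 0) {n v : ZMod 2} {y : 𝓞 K8} (hy : ¬ lam ∣ y)
    (h : IsSquare (nuL (m ^ 2 * (((-1) ^ n.val * lam ^ v.val * y : 𝓞 K8) : K8)))) : v = 0 := by
  obtain ⟨k, hk⟩ := exists_nu nuL hm
  have e : nuL (((-1) ^ n.val * lam ^ v.val * y : 𝓞 K8) : K8) = exp (-(v.val : ℤ)) := by
    have e1 : (((-1) ^ n.val * lam ^ v.val * y : 𝓞 K8) : K8) =
        (-1) ^ n.val * z8 ^ v.val * (y : K8) := by
      simp only [z8]
      push_cast
      rfl
    rw [e1, map_mul, map_mul, nu_zpow z8_sq nuL_z, nuL_odd hy, mul_one, map_pow,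
      Valuation.map_neg, map_one, one_pow, one_mul]
  rw [map_mul, map_pow, hk, e, ← exp_nsmul, ← exp_add, isSquare_exp] at h
  simp only [nsmul_eq_mul, Nat.cast_ofNat] at h
  have h2 : v.val < 2 := ZMod.val_lt v
  obtain ⟨t, ht⟩ := h
  have h3 : v.val = 0 := by omega
  exact (ZMod.val_eq_zero v).1 h3

/-- the row of `lam`, `j = 1`, `A = 0` -/
theorem lam_row {k n v : ZMod 2} {D y : 𝓞 K8} (hD : Pr D) (hD0 : aa D = 0) (hy : Pr y)
    {m : K8} (hm : m ≠ 0)
    (h : GLocS nuL (((-1) ^ k.val * D : 𝓞 K8) : K8)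
      (m ^ 2 * (((-1) ^ n.val * lam ^ v.val * y : 𝓞 K8) : K8))) :
    ll y = (k + ll D) * v := by
  have h4 := nu4_le z8_sq nuL_z
  have hz0 := z_ne z8_sq nuL_z
  have hDo := hD.odd
  have hyo := hy.odd
  have hneg : ∀ e : ZMod 2, (-1 : 𝓞 K8) ^ e.val = 1 ∨ (-1 : 𝓞 K8) ^ e.val = -1 := fun e =>
    neg_one_pow_eq_or _ _
  have h01 : ∀ v : ZMod 2, v = 0 ∨ v = 1 := by decide
  -- `d = 1` modulo `lam ^ 2`
  have hd : nuL ((((-1) ^ k.val * D : 𝓞 K8) : K8) - 1) ≤ exp (-2) := by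
    have e : (((-1) ^ k.val * D : 𝓞 K8) : K8) - 1 = (((-1) ^ k.val * D - 1 : 𝓞 K8) : K8) := by
      push_cast
      rfl
    have h5 : lam ^ 2 ∣ ((-1) ^ k.val * D - 1 : 𝓞 K8) := by
      rw [lam_sq, neg_dvd, two_dvd_iff]
      have h6 : (cp D).1 % 2 = 1 := (Pr_iff.1 hD).1
      have h7 : (2 : ℤ) ∣ (cp D).2 := by
        rw [aa_cp, ZMod.intCast_zmod_eq_zero_iff_dvd] at hD0
        exact_mod_cast hD0
      rcases hneg k with h8 | h8
      · rw [h8, one_mul, cp_sub, cp_one]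
        simp only [Prod.fst_sub, Prod.snd_sub]
        omega
      · rw [h8, neg_one_mul, cp_sub, cp_neg, cp_one]
        simp only [Prod.fst_sub, Prod.snd_sub, Prod.fst_neg, Prod.snd_neg]
        omega
    rw [e]
    exact (nuL_le_pow 2).2 h5
  have hsq : ∀ c : 𝓞 K8, ¬ lam ∣ c → Sq nuL (m ^ 2 * (c : K8)) → ll c = 0 := by
    intro c hc h5
    have h6 : Sq nuL (c : K8) := by
      refine Sq.of_mul_sq hm ?_
      rwa [mul_comm]
    exact (sq_odd hc h6).2.2
  have hpow : ∀ n : ZMod 2, ∀ y : 𝓞 K8, ¬ lam ∣ y → ¬ lam ∣ (-1) ^ n.val * y ∧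
      ll ((-1) ^ n.val * y) = ll y := by
    intro n y hyo
    rcases hneg n with h5 | h5
    · rw [h5, one_mul]
      exact ⟨hyo, rfl⟩
    · rw [h5, neg_one_mul]
      exact ⟨neg_odd hyo, ll_neg hyo⟩
  rcases locL_one z8_sq nuL_z nuL_res hd h with h5 | h5 | ⟨σ, hσ, h5, h6⟩
  · have hv := par_v hm hyo (h5.even h4)
    rw [hv, ZMod.val_zero, pow_zero, mul_one] at h5
    rw [hv, mul_zero, ← (hpow n y hyo).2]
    exact hsq _ (hpow n y hyo).1 h5
  · have h5' := h5.even h4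
    rw [Valuation.map_neg] at h5'
    have hv := par_v hm hyo h5'
    rw [hv, ZMod.val_zero, pow_zero, mul_one] at h5
    rw [hv, mul_zero, ← (hpow n y hyo).2, ← ll_neg (hpow n y hyo).1]
    refine hsq _ (neg_odd (hpow n y hyo).1) ?_
    have e : m ^ 2 * ((-((-1) ^ n.val * y) : 𝓞 K8) : K8) =
        -(m ^ 2 * (((-1) ^ n.val * y : 𝓞 K8) : K8)) := by
      push_cast
      ring
    rw [e]
    exact h5
  · -- `σ` is an integer
    obtain ⟨t, ht⟩ := approx8 5 σ hσ
    have hs : nuL ((sO t : K8) - (1 + 2 * z8 - 2 * σ)) ≤ exp (-5) := by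
      have e : (sO t : K8) - (1 + 2 * z8 - 2 * σ) = 2 * (σ - (t : K8)) := by
        rw [sO, z8]
        push_cast
        rw [coe_two8]
        ring
      rw [e, map_mul]
      exact (mul_le_of_le_one_left' (nu2_le z8_sq nuL_z)).trans ht
    have hq : nuL ((qO t : K8) - (1 - 2 * σ + z8 * (σ * (1 - σ)))) ≤ exp (-5) := by
      have e : (qO t : K8) - (1 - 2 * σ + z8 * (σ * (1 - σ))) =
          (2 + z8 * (σ + (t : K8) - 1)) * (σ - (t : K8)) := by
        rw [qO, z8]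
        push_cast
        rw [coe_two8]
        ring
      rw [e, map_mul]
      refine (mul_le_of_le_one_left' ?_).trans ht
      exact add_le1 (nu2_le z8_sq nuL_z) (mul_le1 (z_le z8_sq nuL_z)
        (sub_le1 (add_le1 hσ (nuL_O t)) (map_one nuL).le))
    obtain ⟨S, hS⟩ : ∃ S, S = 1 + 2 * z8 - 2 * σ := ⟨_, rfl⟩
    obtain ⟨Q, hQ⟩ : ∃ Q, Q = 1 - 2 * σ + z8 * (σ * (1 - σ)) := ⟨_, rfl⟩
    rw [← hS] at hs h5 h6
    rw [← hQ] at hq h5
    have hx5 : (exp (-5) : ℤᵐ⁰) < 1 := by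
      rw [← exp_zero, exp_lt_exp]
      norm_num
    have hS1 : nuL S = 1 := by
      have e : S = (sO t : K8) - ((sO t : K8) - S) := by ring
      rw [e, nu_subl, nuL_odd (sO_odd t)]
      rw [nuL_odd (sO_odd t)]
      exact hs.trans_lt hx5
    have hQ1 : nuL Q = 1 := by
      have e : Q = (qO t : K8) - ((qO t : K8) - Q) := by ring
      rw [e, nu_subl, nuL_odd (qO_odd t)]
      rw [nuL_odd (qO_odd t)]
      exact hq.trans_lt hx5
    obtain ⟨hdo, hdl⟩ := hpow k D hDo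
    obtain ⟨d, hdd⟩ : ∃ d : 𝓞 K8, d = (-1) ^ k.val * D := ⟨_, rfl⟩
    have hdk : sgn d = k := by
      rcases h01 k with rfl | rfl
      · rw [hdd, ZMod.val_zero, pow_zero, one_mul]
        exact sgn_Pr hD
      · have h1 : ((1 : ZMod 2)).val = 1 := rfl
        rw [hdd, h1, pow_one, neg_one_mul]
        exact sgn_neg' hD
    rw [← hdd] at hdo hdl hd h5 h6
    have hd1 := nuL_odd hdo
    -- the first condition
    have h7 : Sq nuL ((-(d * sO t * qO t) : 𝓞 K8) : K8) := by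
      refine Sq.congr2 h5 ?_ ?_
      · rw [Valuation.map_neg, map_mul, map_mul, hd1, hS1, hQ1, one_mul, one_mul]
      · have e : ((-(d * sO t * qO t) : 𝓞 K8) : K8) - -((d : K8) * S * Q) =
            -((d : K8) * (((sO t : K8) - S) * (qO t : K8) + S * ((qO t : K8) - Q))) := by
          push_cast
          ring
        rw [e, Valuation.map_neg, map_mul, hd1, one_mul]
        refine nuL.map_add_le ?_ ?_
        · rw [map_mul, nuL_odd (qO_odd t), mul_one]
          exact hs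
        · rw [map_mul, hS1, one_mul]
          exact hq
    have ho1 := lam_prime.not_dvd_mul hdo (sO_odd t)
    have ho2 := lam_prime.not_dvd_mul ho1 (qO_odd t)
    obtain ⟨hP1, -, hL1⟩ := sq_odd (neg_odd ho2) h7
    have hG1 := sgn_Pr hP1
    rw [sgn_neg ho2, sgn_mul ho1 (qO_odd t), sgn_mul hdo (sO_odd t), hdk] at hG1
    -- the parity
    have hv : v = 1 := by
      have h8 := h6.even h4
      have e0 : nuL (z8 * (d : K8) * S) = exp (-1) := by
        rw [map_mul, map_mul, nuL_z, hd1, hS1, mul_one, mul_one]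
      rw [map_mul, e0] at h8
      rcases h01 v with rfl | h9
      · exfalso
        obtain ⟨k', hk'⟩ := exists_nu nuL hm
        rw [ZMod.val_zero, pow_zero, mul_one, map_mul, map_pow, hk', nuL_odd (hpow n y hyo).1,
          mul_one, ← exp_nsmul, ← exp_add, isSquare_exp] at h8
        simp only [nsmul_eq_mul, Nat.cast_ofNat] at h8
        obtain ⟨t', ht'⟩ := h8
        omega
      · exact h9
    have h1v : ((1 : ZMod 2)).val = 1 := rfl
    rw [hv, h1v, pow_one] at h6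
    -- the second condition
    have h8 : Sq nuL ((((-1) ^ n.val * y) * (d * sO t) : 𝓞 K8) : K8) := by
      have h9 : Sq nuL ((((-1) ^ n.val * y : 𝓞 K8) : K8) * ((d : K8) * S)) := by
        refine Sq.of_mul_sq (mul_ne_zero hm hz0) ?_
        have e : (((-1) ^ n.val * y : 𝓞 K8) : K8) * ((d : K8) * S) * (m * z8) ^ 2 =
            m ^ 2 * (((-1) ^ n.val * lam * y : 𝓞 K8) : K8) * (z8 * (d : K8) * S) := by
          simp only [z8]
          push_cast
          ring
        rw [e]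
        exact h6
      refine Sq.congr2 h9 ?_ ?_
      · rw [map_mul, map_mul, nuL_odd (hpow n y hyo).1, hd1, hS1, one_mul, one_mul]
      · have e : ((((-1) ^ n.val * y) * (d * sO t) : 𝓞 K8) : K8) -
            (((-1) ^ n.val * y : 𝓞 K8) : K8) * ((d : K8) * S) =
            (((-1) ^ n.val * y : 𝓞 K8) : K8) * ((d : K8) * ((sO t : K8) - S)) := by
          push_cast
          ring
        rw [e, map_mul, map_mul, nuL_odd (hpow n y hyo).1, hd1, one_mul, one_mul]
        exact hs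
    have hL2 := (sq_odd (lam_prime.not_dvd_mul (hpow n y hyo).1 ho1) h8).2.2
    rw [ll_mul' (hpow n y hyo).1 ho1, (hpow n y hyo).2, ll_mul' hdo (sO_odd t), hdl] at hL2
    have hc := chk t
    rw [hv, mul_one]
    have key : ∀ k a1 a2 a3 a4 a5 : ZMod 2, k + a1 + a2 + 1 = 0 → a5 + (a4 + a3) = 0 →
        a3 + a1 + a2 = 1 → a5 = k + a4 := by decide
    exact key _ _ _ _ _ _ hG1 hL2 hc

/-- the other cases: the class has an even value -/
theorem lam_even {k j n v : ZMod 2} {D y : 𝓞 K8} (hD : Pr D) (hj : j = 0 ∨ aa D = 1) (hy : Pr y)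
    {m : K8} (hm : m ≠ 0)
    (h : GLocS nuL (((-1) ^ k.val * lam ^ (1 - j.val) * D : 𝓞 K8) : K8)
      (m ^ 2 * (((-1) ^ n.val * lam ^ v.val * y : 𝓞 K8) : K8))) : v = 0 := by
  have h01 : ∀ v : ZMod 2, v = 0 ∨ v = 1 := by decide
  have h1v : ((1 : ZMod 2)).val = 1 := rfl
  refine par_v hm hy.odd (locL_even z8_sq nuL_z nuL_res ?_ h)
  rcases h01 j with rfl | rfl
  · left
    have e : (((-1) ^ k.val * lam ^ (1 - (0 : ZMod 2).val) * D : 𝓞 K8) : K8) =
        (-1) ^ k.val * z8 * (D : K8) := by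
      simp only [z8, ZMod.val_zero]
      push_cast
      ring
    rw [e, map_mul, map_mul, nuL_z, nuL_odd hD.odd, mul_one, map_pow, Valuation.map_neg, map_one,
      one_pow, one_mul]
  · right
    have hA : aa D = 1 := by
      rcases hj with h1 | h1
      · exact absurd h1 (by decide)
      · exact h1
    have e : ((-1) ^ k.val * lam ^ (1 - (1 : ZMod 2).val) * D : 𝓞 K8) = (-1) ^ k.val * D := by
      rw [h1v]
      norm_num
    rw [e]
    have hneg : (-1 : 𝓞 K8) ^ k.val = 1 ∨ (-1 : 𝓞 K8) ^ k.val = -1 := neg_one_pow_eq_or _ _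
    have hodd : ¬ lam ∣ (-1) ^ k.val * D := by
      rcases hneg with h5 | h5
      · rw [h5, one_mul]
        exact hD.odd
      · rw [h5, neg_one_mul]
        exact neg_odd hD.odd
    refine ⟨nuL_odd hodd, le_antisymm ?_ ?_⟩
    · have h6 := nuL_res _ (nuL_odd hodd)
      rw [← exp_zero] at h6
      exact ltle h6
    · by_contra h6
      rw [not_le] at h6
      have h7 := ltle h6
      have e : (((-1) ^ k.val * D : 𝓞 K8) : K8) - 1 = (((-1) ^ k.val * D - 1 : 𝓞 K8) : K8) := by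
        push_cast
        rfl
      rw [e] at h7
      have h8 := (nuL_le_pow 2).1 h7
      rw [lam_sq, neg_dvd, two_dvd_iff] at h8
      have h9 : ¬ (2 : ℤ) ∣ (cp D).2 := by
        intro h10
        rw [aa_cp] at hA
        have h11 : (((cp D).2 : ℤ) : ZMod 2) = 0 :=
          (ZMod.intCast_zmod_eq_zero_iff_dvd _ _).2 (by exact_mod_cast h10)
        rw [h11] at hA
        exact zero_ne_one hA
      rcases hneg with h5 | h5
      · rw [h5, one_mul, cp_sub, cp_one] at h8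
        simp only [Prod.fst_sub, Prod.snd_sub] at h8
        omega
      · rw [h5, neg_one_mul, cp_sub, cp_neg, cp_one] at h8
        simp only [Prod.fst_sub, Prod.snd_sub, Prod.fst_neg, Prod.snd_neg] at h8
        omega

end

end Pool.Agent.Lib.MP_1a91b9_ntW.C
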