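import Pool.Agent.Lib.MP_1a91b9_ntW.C.PtsW

/-!
# MP_1a91b9_nt, `ℚ(√-2)`, part C: the torsion

For `d ≠ 0` in a number field with `z ^ 2 = -2` in which `-1` is not a square, the point `(0, 0)` of
`y² = x³ + 4 d x² + 2 d² x` is not divisible by `z`; if the group of points is finite, its order is
`2 m` with `m` odd. In `ℚ(√-2)` the element `-1` is not a square.
-/

set_option autoImplicit false

namespace Pool.Agent.Lib.MP_1a91b9_ntW.C

open WeierstrassCurve NumberField
open Pool.Agent.Lib.MP_1a91b9_ntW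
open scoped Classical

noncomputable section

section gen

variable {N : Type*} [Field N] {W : Affine N} {d z : N}

/-- the points of order two -/
theorem two_tors [CharZero N] (h : IsS W z d) (hm : ¬ IsSquare (-1 : N)) (Q : W.Point)
    (hQ : 2 • Q = 0) : Q = 0 ∨ Q = tq h := by
  rcases Q with _ | ⟨x, y, hxy⟩
  · exact Or.inl rfl
  · right
    have h1 : -(Affine.Point.some x y hxy) = Affine.Point.some x y hxy := by
      rw [two_nsmul] at hQ
      exact (eq_neg_of_add_eq_zero_left hQ).symm
    rw [Affine.Point.neg_some, Affine.Point.some.injEq, negY_eq h] at h1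
    have hy : y = 0 := by
      have h2 : (2 : N) * y = 0 := by linear_combination -h1.2
      exact (mul_eq_zero.1 h2).resolve_left two_ne_zero
    have h3 := (h.eqn x y).1 hxy.1
    by_cases hx : x = 0
    · exact pt_congr hx hy _ _
    · exfalso
      have h4 : (x + 2 * d) ^ 2 = -(z * d) ^ 2 := by
        have h5 : x * (x ^ 2 + 4 * d * x + 2 * d ^ 2) = 0 := by
          rw [hy] at h3
          linear_combination -h3
        have h6 := (mul_eq_zero.1 h5).resolve_left hx
        linear_combination h6 + d ^ 2 * h.hz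
      apply hm
      have hzd : z * d ≠ 0 := mul_ne_zero h.z0 h.hd
      refine ⟨(x + 2 * d) / (z * d), ?_⟩
      rw [div_mul_div_comm, ← pow_two, ← pow_two, h4, neg_div, div_self (pow_ne_zero 2 hzd)]

/-- `(0, 0)` is not divisible by `z` -/
theorem tq_notMem [CharZero N] (h : IsS W z d) (hm : ¬ IsSquare (-1 : N)) :
    tq h ∉ (mu h).range := by
  rintro ⟨Q, hQ⟩
  have h1 := mu_mu h Q
  rw [hQ, mu_tq] at h1
  rcases two_tors h hm Q (neg_eq_zero.1 h1.symm) with h2 | h2
  · rw [h2, map_zero] at hQ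
    exact tq_ne h hQ.symm
  · rw [h2, mu_tq] at hQ
    exact tq_ne h hQ.symm

end gen

variable {N : Type*} [Field N] [NumberField N] {W : Affine N} {d z : N}

theorem card_ker_mu (h : IsS W z d) : Nat.card (mu h).ker = 2 := by
  have hs : ((mu h).ker : Set W.Point) = {0, tq h} := by
    ext P
    simp only [SetLike.mem_coe, AddMonoidHom.mem_ker, Set.mem_insert_iff, Set.mem_singleton_iff]
    constructor
    · exact mu_ker_all h P
    · rintro (rfl | rfl)
      · exact map_zero _
      · exact mu_tq h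
  have h1 : Nat.card (mu h).ker = ((mu h).ker : Set W.Point).ncard := rfl
  rw [h1, hs, Set.ncard_pair (tq_ne h).symm]

/-- A finite group of points has order `2 m` with `m` odd. -/
theorem card_of_fin (h : IsS W z d) (hm : ¬ IsSquare (-1 : N)) (hfin : Finite W.Point) :
    ∃ m : ℕ, Odd m ∧ Nat.card W.Point = 2 * m := by
  refine card_of_desc h fun P => ?_
  have hidx : (mu h).range.index = 2 := by
    have h1 := AddSubgroup.card_eq_card_quotient_mul_card_addSubgroup (mu h).ker
    rw [card_ker_mu h, Nat.card_congr (QuotientAddGroup.quotientKerEquivRange (mu h)).toEquiv] at h1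
    have h2 := (mu h).range.index_mul_card
    have h3 : 0 < Nat.card (mu h).range := Nat.card_pos
    have h4 : (mu h).range.index * Nat.card (mu h).range = 2 * Nat.card (mu h).range := by
      rw [h2, h1, mul_comm]
    exact Nat.eq_of_mul_eq_mul_right h3 h4
  by_cases hP : P ∈ (mu h).range
  · obtain ⟨Q, hQ⟩ := hP
    exact ⟨0, Q, map_zero _, by rw [hQ, zero_add]⟩
  · have h1 : P + tq h ∈ (mu h).range :=
      (AddSubgroup.add_mem_iff_of_index_two hidx).2 ⟨fun h2 => absurd h2 hP,
        fun h2 => absurd h2 (tq_notMem h hm)⟩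
    obtain ⟨Q, hQ⟩ := h1
    refine ⟨tq h, Q, mu_tq h, ?_⟩
    rw [hQ, add_comm P, ← add_assoc, tq_add_self, zero_add]

/-- `-1` is not a square in `ℚ(√-2)` -/
theorem neg_one_K8 : ¬ IsSquare (-1 : K8) := by
  rintro ⟨i, hi⟩
  have hint : IsIntegral ℤ i := by
    refine ⟨Polynomial.X ^ 2 + 1, by monicity!, ?_⟩
    rw [Polynomial.eval₂_add, Polynomial.eval₂_pow, Polynomial.eval₂_X, Polynomial.eval₂_one,
      pow_two, ← hi]
    ring
  obtain ⟨t, ht⟩ : ∃ t : 𝓞 K8, (t : K8) = i := ⟨⟨i, hint⟩, rfl⟩
  have h1 : t * t = -1 := by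
    apply RingOfIntegers.ext
    rw [← ht] at hi
    push_cast
    exact hi.symm
  have h2 : IsUnit t := IsUnit.of_mul_eq_one (-t) (by rw [mul_neg, h1, neg_neg])
  have h3 : (2 : 𝓞 K8) = 0 := by
    rcases isUnit_iff.1 h2 with h4 | h4
    · rw [h4] at h1
      linear_combination h1
    · rw [h4] at h1
      linear_combination h1
  have h4 := lam_sq
  rw [h3, neg_zero] at h4
  exact lam_ne_zero (pow_eq_zero_iff two_ne_zero |>.1 h4)

/-- **The torsion of the curves over `ℚ(√-2)`.** -/
theorem card_W {d : 𝓞 K8} (hd : d ≠ 0) (hfin : Finite (WW d).toAffine.Point) :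
    ∃ m : ℕ, Odd m ∧ Nat.card (WW d).toAffine.Point = 2 * m := by
  have h : IsS (WW d).toAffine z8 ((d : 𝓞 K8) : K8) :=
    ⟨rfl, z8_sq, Pool.Agent.Lib.MP_1a91b9_ntV.C.coe_ne hd⟩
  exact card_of_fin h neg_one_K8 hfin

end

end Pool.Agent.Lib.MP_1a91b9_ntW.C
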