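import Pool.Agent.Lib.MP_1a91b9_ntW.C.SelW

/-!
# MP_1a91b9_nt, `ℚ(√-2)`, part C: the points of the curves `WW (dW k j S)`

If `GW k j S` is not zero, the curve `y² = x³ + 4 d x² + 2 d² x`, `d = dW k j S`, has finitely many
points over `ℚ(√-2)`, their number is `2 m` with `m` odd, and the 2-primary part of its
Tate-Shafarevich group is trivial.
-/

set_option autoImplicit false

namespace Pool.Agent.Lib.MP_1a91b9_ntW.C

open WeierstrassCurve NumberField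
open Pool.Agent.Lib.MP_1a91b9_ntW
open Pool.Agent.Lib.MP_1a91b9_ntT3.S9 (ShaP)

noncomputable section

theorem dW_ne (k j : ZMod 2) (S : Finset Pg) : dW k j S ≠ 0 := by
  rw [dW]
  exact mul_ne_zero (mul_ne_zero (pow_ne_zero _ (neg_ne_zero.2 one_ne_zero))
    (pow_ne_zero _ lam_ne_zero)) (DD_ne S)

theorem dW_ne' (k j : ZMod 2) (S : Finset Pg) : ((dW k j S : 𝓞 K8) : K8) ≠ 0 :=
  Pool.Agent.Lib.MP_1a91b9_ntV.C.coe_ne (dW_ne k j S)

theorem WW_cs (d : 𝓞 K8) : WW d = cs ((d : 𝓞 K8) : K8) := rfl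

/-- **Theorem C for `ℚ(√-2)`.** -/
theorem ptsW {k j : ZMod 2} {S : Finset Pg} (hG : GW k j S ≠ 0) :
    Finite (WW (dW k j S)).toAffine.Point ∧
      (∃ m : ℕ, Odd m ∧ Nat.card (WW (dW k j S)).toAffine.Point = 2 * m) ∧
      Nat.card (ShaP 2 (WW (dW k j S))) = 1 :=
  of_selClS (dW_ne' k j S) z8_sq (selW hG) (WW_cs _)

end

end Pool.Agent.Lib.MP_1a91b9_ntW.C
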