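import Pool.Agent.Lib.MP_1a91b9_ntH.C.LocDefs

/-!
# MP_1a91b9_nt, `ℚ(√-2)`, part C: the local conditions of the descent by `z = √-2`

The curve is `y² = x³ + 4 d x² + 2 d² x`, `z² = -2`; the descent map is `(x, y) ↦ x` modulo squares.
-/

set_option autoImplicit false

namespace Pool.Agent.Lib.MP_1a91b9_ntW.C

open WithZero
open Pool.Agent.Lib.MP_1a91b9_ntH.C (Sq)

/-- The local condition for `a`, over a field with a valuation: the class of `a` is trivial, or the
class `-1` of the point `(0, 0)`, or the class of a point of order two `((w - 2) d, 0)` with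
`w² = 2` (in the completion), or the class of a point with abscissa `x` which is not of order two. -/
def GLocS {L : Type*} [Field L] (ν : Valuation L ℤᵐ⁰) (d a : L) : Prop :=
  Sq ν a ∨ Sq ν (-a) ∨
    (∃ w : L, w - 2 ≠ 0 ∧ ν (w ^ 2 / 2 - 1) < ν 16 ∧ Sq ν (a * ((w - 2) * d))) ∨
    ∃ x : L, x ≠ 0 ∧ Sq ν (x * (x ^ 2 + 4 * d * x + 2 * d ^ 2)) ∧ Sq ν (a * x)

end Pool.Agent.Lib.MP_1a91b9_ntW.C
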