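import Pool.Agent.Lib.MP_1a91b9_ntW.C.Crv

/-!
# Base change for `y² = x³ + 4 d x² + 2 d² x`
-/

set_option autoImplicit false

namespace Pool.Agent.Lib.MP_1a91b9_ntW.C

open WeierstrassCurve Pool.Agent.Lib.MP_1a91b9_ntT.S9
open scoped Classical

variable {k : Type*} [Field k] {z d : k}

theorem isS_bc (hd : d ≠ 0) (hz : z ^ 2 = -2) (F : Type*) [Field F] [Algebra k F] :
    IsS (Affine.baseChange (cs d) F) (algebraMap k F z) (algebraMap k F d) := by
  refine ⟨?_, ?_, (map_ne_zero _).2 hd⟩
  · simp only [cs, WeierstrassCurve.map, WeierstrassCurve.baseChange, map_zero, map_mul, map_pow,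
      map_ofNat]
  · rw [← map_pow, hz, map_neg, map_ofNat]

variable (hd : d ≠ 0) (hz : z ^ 2 = -2)

theorem mu_map {F F' : Type*} [Field F] [Field F'] [CharZero F]
    [CharZero F'] [Algebra k F] [Algebra k F'] (f : F →ₐ[k] F') (P : Pts (cs d) F) :
    Affine.Point.map f (mu (isS_bc hd hz F) P) = mu (isS_bc hd hz F') (Affine.Point.map f P) := by
  have hf : f (algebraMap k F z) = algebraMap k F' z := f.commutes z
  have hfd : f (algebraMap k F d) = algebraMap k F' d := f.commutes d
  cases P with
  | zero =>
    change Affine.Point.map f (mu (isS_bc hd hz F) 0) =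
      mu (isS_bc hd hz F') (Affine.Point.map f 0)
    rw [map_zero, map_zero, map_zero]
  | some x y hn =>
    rw [Affine.Point.map_some]
    by_cases hx : x = 0
    · rw [mu_of_zero _ _ hx, mu_of_zero _ _ (by rw [hx, map_zero]), map_zero]
    · obtain ⟨h1, e1⟩ := mu_of_ne (isS_bc hd hz F) hn hx
      obtain ⟨h2, e2⟩ := mu_of_ne (isS_bc hd hz F')
        ((Affine.baseChange_nonsingular (cs d) f.injective x y).2 hn) ((map_ne_zero f).2 hx)
      rw [e1, Affine.Point.map_some, e2]
      refine pt_congr ?_ ?_ _ _
      · simp only [map_div₀, map_neg, map_add, map_mul, map_pow, map_ofNat, hfd]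
      · simp only [map_div₀, map_sub, map_mul, map_pow, map_ofNat, hfd, hf]

theorem tq_map {F F' : Type*} [Field F] [Field F'] [CharZero F]
    [CharZero F'] [Algebra k F] [Algebra k F'] (f : F →ₐ[k] F') :
    Affine.Point.map (W' := cs d) f (tq (isS_bc hd hz F)) = tq (isS_bc hd hz F') := by
  rw [tq, tq, Affine.Point.map_some]
  congr 1
  · exact map_zero f
  · exact map_zero f

theorem cfn_map {F F' : Type*} [Field F] [Field F'] [Algebra k F] [Algebra k F'] (f : F →ₐ[k] F')
    (P : Pts (cs d) F) :
    cfn (algebraMap k F' z) (Affine.Point.map f P) = f (cfn (algebraMap k F z) P) := by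
  have hf : f (algebraMap k F z) = algebraMap k F' z := f.commutes z
  cases P with
  | zero =>
    change cfn (algebraMap k F' z) (0 : Pts (cs d) F') = f 0
    rw [map_zero]
    rfl
  | some x y hn =>
    rw [Affine.Point.map_some]
    change f y / (algebraMap k F' z * f x) = f (y / (algebraMap k F z * x))
    simp only [map_div₀, map_mul, hf]

theorem ch_alg {F : Type*} [Field F] [Algebra k F] {W : Affine F} (P : W.Point) :
    ch F P = algebraMap k F (ch k P) := by
  unfold ch
  split_ifs
  · rw [map_one]
  · rw [map_neg, map_one]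

theorem ch_map {F F' : Type*} [Field F] [Field F'] [Algebra k F] [Algebra k F'] (f : F →ₐ[k] F')
    (P : Pts (cs d) F) {E : Type*} [Field E] :
    ch E (Affine.Point.map f P) = ch E P := by
  have hinj : Function.Injective (Affine.Point.map (W' := cs d) f) :=
    Affine.Point.map_injective f
  unfold ch
  by_cases h0 : P = 0
  · rw [if_pos h0, if_pos (by rw [h0, map_zero])]
  · have h0' : Affine.Point.map (W' := cs d) f P ≠ 0 := by
      intro h1
      exact h0 (hinj (h1.trans (map_zero _).symm))
    rw [if_neg h0, if_neg h0']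

/-- The points of the kernel are rational. -/
theorem ker_fixed {F F' : Type*} [Field F] [Field F'] [CharZero F]
    [CharZero F'] [Algebra k F] [Algebra k F'] (f g : F →ₐ[k] F') (P : Pts (cs d) F)
    (hP : mu (isS_bc hd hz F) P = 0) : Affine.Point.map f P = Affine.Point.map g P := by
  rcases mu_ker_all _ P hP with h | h
  · rw [h, map_zero, map_zero]
  · rw [h, tq_map hd hz, tq_map hd hz]

end Pool.Agent.Lib.MP_1a91b9_ntW.C
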