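import Pool.Agent.Lib.MP_1a91b9_nuI.Ho.Hom
import Pool.Agent.Lib.MP_1a91b9_nt.VcPoint
import Pool.Agent.Lib.MP_1a91b9_ntT.S9.KB
import Pool.Agent.Lib.MP_1a91b9_ntT3.S9.Defs

/-!
# The curve `y² = x³ + 4 d x² + 2 d² x`, `z² = -2`, and its endomorphism `z`
-/

set_option autoImplicit false

namespace Pool.Agent.Lib.MP_1a91b9_ntW.C

open WeierstrassCurve
open Pool.Agent.Lib.MP_1a91b9_nuI (Rel2 phi2 phi2_add neg_pt add_pt double_pt double_zero)
open scoped Classical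

/-- The curve `y² = x³ + 4 d x² + 2 d² x`. -/
def cs {F : Type*} [Field F] (d : F) : WeierstrassCurve F := ⟨0, 4 * d, 0, 2 * d ^ 2, 0⟩

/-- `W` is the curve `y² = x³ + 4 d x² + 2 d² x`, `d ≠ 0`, and `z² = -2`. -/
structure IsS {F : Type*} [Field F] (W : Affine F) (z d : F) : Prop where
  eq : W = cs d
  hz : z ^ 2 = -2
  hd : d ≠ 0

/-- The quotient of `cs d` by `(0, 0)`. -/
def cs' {F : Type*} [Field F] (d : F) : WeierstrassCurve F := ⟨0, -8 * d, 0, 8 * d ^ 2, 0⟩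

section
variable {F : Type*} [Field F] {W : Affine F} {z d : F}

theorem IsS.eqn (h : IsS W z d) (x y : F) :
    W.Equation x y ↔ y ^ 2 = x ^ 3 + 4 * d * x ^ 2 + 2 * d ^ 2 * x := by
  rw [h.eq, cs, Affine.equation_iff]
  dsimp only
  constructor
  · intro e
    linear_combination e
  · intro e
    linear_combination e

theorem rel2 [CharZero F] (hd : d ≠ 0) : Rel2 (cs d) (cs' d) where
  two := two_ne_zero
  a₁ := rfl
  a₃ := rfl
  a₆ := rfl
  a₁' := rfl
  a₃' := rfl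
  a₆' := rfl
  a₂' := by
    show -8 * d = -2 * (4 * d)
    ring
  a₄' := by
    show 8 * d ^ 2 = (4 * d) ^ 2 - 4 * (2 * d ^ 2)
    ring
  b0 := mul_ne_zero two_ne_zero (pow_ne_zero 2 hd)
  b0' := mul_ne_zero (by norm_num) (pow_ne_zero 2 hd)

theorem IsS.nons [CharZero F] (h : IsS W z d) (x y : F) :
    W.Nonsingular x y ↔ y ^ 2 = x ^ 3 + 4 * d * x ^ 2 + 2 * d ^ 2 * x := by
  rw [h.eq]
  have h1 := Pool.Agent.Lib.MP_1a91b9_nuI.nons (cs d) (rel2 h.hd).Δ rfl rfl x y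
  refine h1.trans ?_
  show y ^ 2 = x ^ 3 + 4 * d * x ^ 2 + 2 * d ^ 2 * x + 0 ↔ _
  rw [add_zero]

theorem IsS.z0 [CharZero F] (h : IsS W z d) : z ≠ 0 := by
  rintro rfl
  have hz := h.hz
  norm_num at hz

theorem exists_zP [CharZero F] (h : IsS W z d) : ∃ f : W.Point →+ W.Point,
    (∀ (y : F) (hn : W.Nonsingular 0 y), f (.some 0 y hn) = 0) ∧
    ∀ (x y : F) (hn : W.Nonsingular x y), x ≠ 0 →
      ∃ hn', f (.some x y hn) = .some (-(x ^ 2 + 4 * d * x + 2 * d ^ 2) / (2 * x))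
        (z * y * (x ^ 2 - 2 * d ^ 2) / (4 * x ^ 2)) hn' := by
  have hz := h.hz
  have hz0 := h.z0
  have hd := h.hd
  obtain ⟨rfl, -, -⟩ := h
  let C : VariableChange F := ⟨Units.mk0 z⁻¹ (inv_ne_zero hz0), 0, 0, 0⟩
  have hu : (C.u : F) = z⁻¹ := rfl
  have hui : ((C.u⁻¹ : Fˣ) : F) = z := by
    change ((Units.mk0 z⁻¹ (inv_ne_zero hz0))⁻¹ : Fˣ).val = z
    rw [Units.val_inv_eq_inv_val, Units.val_mk0, inv_inv]
  have hCW : C • cs d = cs' d := by
    unfold cs cs'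
    ext
    · rw [variableChange_a₁, hui]
      change z * (0 + 2 * 0) = 0
      ring
    · rw [variableChange_a₂, hui]
      change z ^ 2 * (4 * d - 0 * 0 + 3 * 0 - 0 ^ 2) = -8 * d
      linear_combination (4 * d) * hz
    · rw [variableChange_a₃, hui]
      change z ^ 3 * (0 + 0 * 0 + 2 * 0) = 0
      ring
    · rw [variableChange_a₄, hui]
      change z ^ 4 * (2 * d ^ 2 - 0 * 0 + 2 * 0 * (4 * d) - (0 + 0 * 0) * 0 +
        3 * (0) ^ 2 - 2 * 0 * 0) = 8 * d ^ 2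
      linear_combination (2 * d ^ 2 * (z ^ 2 - 2)) * hz
    · rw [variableChange_a₆, hui]
      change z ^ 6 * (0 + 0 * (2 * d ^ 2) + (0) ^ 2 * (4 * d) + (0) ^ 3 - 0 * 0 - 0 ^ 2 -
        0 * 0 * 0) = 0
      ring
  have key := Pool.Agent.Lib.MP_1a91b9_nt.exists_point_equiv (cs d) C
  rw [hCW] at key
  obtain ⟨e, he⟩ := key
  have hR := rel2 hd
  refine ⟨e.toAddMonoidHom.comp (AddMonoidHom.mk' (phi2 hR) (phi2_add hR)), ?_, ?_⟩
  · intro y hn
    have h1 : phi2 hR (.some 0 y hn) = 0 := by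
      unfold phi2
      simp only [dif_pos]
      rfl
    show e (phi2 hR (.some 0 y hn)) = 0
    rw [h1, map_zero]
  · intro x y hn hx
    have e1 : ∃ hn', phi2 hR (.some x y hn) =
        .some (x + (cs d).a₂ + (cs d).a₄ / x) (y * (1 - (cs d).a₄ / x ^ 2)) hn' := by
      refine ⟨?_, ?_⟩
      · rw [Pool.Agent.Lib.MP_1a91b9_nuI.nons (cs' d) hR.Δ' hR.a₁' hR.a₃', hR.a₂', hR.a₄',
          hR.a₆', add_zero]
        apply Pool.Agent.Lib.MP_1a91b9_nuI.phi2_eqn _ _ _ _ hx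
        rw [Pool.Agent.Lib.MP_1a91b9_nuI.nons (cs d) hR.Δ hR.a₁ hR.a₃, hR.a₆, add_zero] at hn
        exact hn
      · unfold phi2
        simp only [hx, dite_false]
    obtain ⟨hn', h1⟩ := e1
    obtain ⟨hn'', h2⟩ := he _ _ hn'
    have h3 : e (phi2 hR (.some x y hn)) = _ := (congrArg e h1).trans h2
    have ex : (C.u : F) ^ 2 * (x + (cs d).a₂ + (cs d).a₄ / x) + C.r =
        -(x ^ 2 + 4 * d * x + 2 * d ^ 2) / (2 * x) := by
      rw [hu]
      change z⁻¹ ^ 2 * (x + 4 * d + 2 * d ^ 2 / x) + 0 = _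
      field_simp
      linear_combination (x ^ 2 + 4 * d * x + 2 * d ^ 2) * hz
    have ey : (C.u : F) ^ 3 * (y * (1 - (cs d).a₄ / x ^ 2)) + (C.u : F) ^ 2 * C.s *
        (x + (cs d).a₂ + (cs d).a₄ / x) + C.t = z * y * (x ^ 2 - 2 * d ^ 2) / (4 * x ^ 2) := by
      rw [hu]
      change z⁻¹ ^ 3 * (y * (1 - 2 * d ^ 2 / x ^ 2)) + z⁻¹ ^ 2 * 0 *
        (x + 4 * d + 2 * d ^ 2 / x) + 0 = _
      field_simp
      linear_combination (-y * (x ^ 2 - 2 * d ^ 2) * (z ^ 2 - 2)) * hz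
    have h2 : ∀ (x' y' : F) (h' : (cs d).toAffine.Nonsingular x' y'),
        x' = -(x ^ 2 + 4 * d * x + 2 * d ^ 2) / (2 * x) →
        y' = z * y * (x ^ 2 - 2 * d ^ 2) / (4 * x ^ 2) →
        e (phi2 hR (.some x y hn)) = .some x' y' h' → ∃ hn', e (phi2 hR (.some x y hn)) =
          .some (-(x ^ 2 + 4 * d * x + 2 * d ^ 2) / (2 * x))
            (z * y * (x ^ 2 - 2 * d ^ 2) / (4 * x ^ 2)) hn' := by
      intro x' y' hq hx' hy' h3
      subst hx'
      subst hy'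
      exact ⟨hq, h3⟩
    exact h2 _ _ hn'' ex ey h3

/-- The endomorphism `z`. -/
noncomputable def mu [CharZero F] (h : IsS W z d) : W.Point →+ W.Point := (exists_zP h).choose

theorem mu_of_zero [CharZero F] (h : IsS W z d) {x y : F} (hn : W.Nonsingular x y) (hx : x = 0) :
    mu h (.some x y hn) = 0 := by
  subst hx
  exact (exists_zP h).choose_spec.1 y hn

theorem mu_of_ne [CharZero F] (h : IsS W z d) {x y : F} (hn : W.Nonsingular x y) (hx : x ≠ 0) :
    ∃ hn', mu h (.some x y hn) = .some (-(x ^ 2 + 4 * d * x + 2 * d ^ 2) / (2 * x))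
        (z * y * (x ^ 2 - 2 * d ^ 2) / (4 * x ^ 2)) hn' :=
  (exists_zP h).choose_spec.2 x y hn hx

end

section

variable {F : Type*} [Field F] [CharZero F] {W : Affine F} {z d : F}

omit [CharZero F] in
theorem pt_congr {x x' y y' : F} (hx : x = x') (hy : y = y') (h1 : W.Nonsingular x y)
    (h2 : W.Nonsingular x' y') : Affine.Point.some x y h1 = Affine.Point.some x' y' h2 := by
  subst hx
  subst hy
  rfl

omit [CharZero F] in
theorem negY_eq (h : IsS W z d) (x y : F) : W.negY x y = -y := by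
  have ha1 : W.a₁ = 0 := by rw [h.eq, cs]
  have ha3 : W.a₃ = 0 := by rw [h.eq, cs]
  rw [Affine.negY, ha1, ha3]
  ring

/-- the point with abscissa `0` -/
theorem y_zero (h : IsS W z d) {y : F} (hn : W.Nonsingular 0 y) : y = 0 := by
  have h1 := (h.nons 0 y).1 hn
  exact (pow_eq_zero_iff two_ne_zero).1 (by linear_combination h1)

theorem mu_zero (h : IsS W z d) (P : W.Point) (hP : mu h P = 0) :
    P = 0 ∨ ∃ (x y : F) (hn : W.Nonsingular x y), P = .some x y hn ∧ x = 0 := by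
  rcases P with _ | ⟨x, y, hn⟩
  · exact Or.inl rfl
  · refine Or.inr ⟨x, y, hn, rfl, ?_⟩
    by_contra hx
    obtain ⟨hn', h1⟩ := mu_of_ne h hn hx
    rw [h1] at hP
    exact Affine.Point.some_ne_zero _ hP

/-- The point `(0, 0)`. -/
noncomputable def tq (h : IsS W z d) : W.Point :=
  Affine.Point.some 0 0 ((h.nons _ _).2 (by ring))

theorem tq_ne (h : IsS W z d) : tq h ≠ 0 := by
  unfold tq
  exact Affine.Point.some_ne_zero _

theorem neg_tq (h : IsS W z d) : -tq h = tq h := by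
  unfold tq
  rw [Affine.Point.neg_some, Affine.Point.some.injEq]
  refine ⟨rfl, ?_⟩
  rw [negY_eq h, neg_zero]

theorem mu_tq (h : IsS W z d) : mu h (tq h) = 0 := mu_of_zero h _ rfl

theorem tq_add_self (h : IsS W z d) : tq h + tq h = 0 := by
  nth_rewrite 1 [← neg_tq h]
  exact neg_add_cancel _

theorem mu_ker_all (h : IsS W z d) (P : W.Point) (hP : mu h P = 0) : P = 0 ∨ P = tq h := by
  rcases mu_zero h P hP with h1 | ⟨x, y, hn, rfl, rfl⟩
  · exact Or.inl h1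
  · right
    exact pt_congr rfl (y_zero h hn) _ _

/-! ### the character of the kernel -/

/-- The character of the kernel of `z`. -/
noncomputable def ch (F' : Type*) [Field F'] (P : W.Point) : F' :=
  if P = 0 then 1 else -1

omit [CharZero F] in
theorem ch_zero {F' : Type*} [Field F'] : ch F' (0 : W.Point) = 1 := by
  unfold ch
  rw [if_pos rfl]

theorem ch_tq (h : IsS W z d) {F' : Type*} [Field F'] : ch F' (tq h) = -1 := by
  unfold ch
  rw [if_neg (tq_ne h)]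

omit [CharZero F] in
theorem ch_cases {F' : Type*} [Field F'] (P : W.Point) : ch F' P = 1 ∨ ch F' P = -1 := by
  unfold ch
  split_ifs
  · exact Or.inl rfl
  · exact Or.inr rfl

omit [CharZero F] in
theorem ch_sq {F' : Type*} [Field F'] (P : W.Point) : ch F' P ^ 2 = 1 := by
  rcases ch_cases (F' := F') P with e | e
  · rw [e, one_pow]
  · rw [e, neg_one_sq]

omit [CharZero F] in
theorem ch_ne {F' : Type*} [Field F'] (P : W.Point) : ch F' P ≠ 0 := by
  intro h0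
  have h1 := ch_sq (F' := F') P
  rw [h0] at h1
  norm_num at h1

theorem ch_add (h : IsS W z d) {F' : Type*} [Field F'] (P Q : W.Point) (hP : mu h P = 0)
    (hQ : mu h Q = 0) : ch F' (P + Q) = ch F' P * ch F' Q := by
  rcases mu_ker_all h P hP with rfl | rfl
  · rw [zero_add, ch_zero, one_mul]
  · rcases mu_ker_all h Q hQ with rfl | rfl
    · rw [add_zero, ch_zero, mul_one]
    · rw [tq_add_self, ch_zero, ch_tq]
      norm_num

/-! ### the function whose square is `X ∘ z`, and the translation by the kernel -/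

/-- The function `y / (z x)`. -/
noncomputable def cfn {F : Type*} [Field F] {W : Affine F} (z : F) : W.Point → F
  | .zero => 0
  | .some x y _ => y / (z * x)

theorem mu_some (h : IsS W z d) {x y : F} (hn : W.Nonsingular x y) (hX : x ≠ 0) :
    ∃ (x' y' : F) (hn' : W.Nonsingular x' y'), mu h (.some x y hn) = .some x' y' hn' ∧
      x' = (y / (z * x)) ^ 2 ∧ x' = -(x ^ 2 + 4 * d * x + 2 * d ^ 2) / (2 * x) ∧
      y' = z * y * (x ^ 2 - 2 * d ^ 2) / (4 * x ^ 2) := by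
  obtain ⟨hn', h1⟩ := mu_of_ne h hn hX
  refine ⟨_, _, hn', h1, ?_, rfl, rfl⟩
  have hz := h.hz
  have hz0 := h.z0
  have hE := (h.nons x y).1 hn
  rw [div_pow, hE]
  field_simp
  linear_combination (-(x ^ 2 + 4 * d * x + 2 * d ^ 2)) * hz

/-- A point which is not killed by `mu`. -/
theorem mu_ne_cases (h : IsS W z d) (P : W.Point) (hP : mu h P ≠ 0) :
    ∃ (x y : F) (hn : W.Nonsingular x y), P = .some x y hn ∧ x ≠ 0 := by
  cases P with
  | zero =>
    exfalso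
    exact hP (map_zero (mu h))
  | some x y hn => exact ⟨x, y, hn, rfl, fun hX => hP (mu_of_zero h hn hX)⟩

theorem cfn_sq (h : IsS W z d) (P : W.Point) {x y : F}
    (hn : W.Nonsingular x y) (hP : mu h P = .some x y hn) : cfn z P ^ 2 = x := by
  obtain ⟨X, Y, hXY, rfl, hX⟩ := mu_ne_cases h P (by
    rw [hP]
    exact Affine.Point.some_ne_zero _)
  obtain ⟨x', y', hn', hmu, hx', -⟩ := mu_some h hXY hX
  rw [hmu] at hP
  injection hP with hx1 hy1
  rw [← hx1, hx']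
  rfl

theorem add_tq (h : IsS W z d) {x y : F} (hn : W.Nonsingular x y) (hX : x ≠ 0) :
    ∃ (hn' : W.Nonsingular (2 * d ^ 2 / x) (-(2 * d ^ 2 * y / x ^ 2))),
      (.some x y hn : W.Point) + tq h = .some (2 * d ^ 2 / x) (-(2 * d ^ 2 * y / x ^ 2)) hn' := by
  have hE := (h.nons x y).1 hn
  have ha1 : W.a₁ = 0 := by rw [h.eq, cs]
  have ha3 : W.a₃ = 0 := by rw [h.eq, cs]
  have ha2 : W.a₂ = 4 * d := by rw [h.eq, cs]
  exact add_pt W ha1 ha3 hn _ hX (y / x) _ _ (by field_simp; ring)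
    (by
      rw [ha2]
      field_simp
      linear_combination -hE)
    (by field_simp; ring)

theorem cfn_add_tq (h : IsS W z d) (P : W.Point)
    (hP : mu h P ≠ 0) : cfn z (P + tq h) = -cfn z P := by
  obtain ⟨x, y, hn, rfl, hX⟩ := mu_ne_cases h P hP
  obtain ⟨hn', e1⟩ := add_tq h hn hX
  rw [e1]
  change -(2 * d ^ 2 * y / x ^ 2) / (z * (2 * d ^ 2 / x)) = -(y / (z * x))
  have hd := h.hd
  have hz0 := h.z0
  field_simp

theorem cfn_add (h : IsS W z d) (P R : W.Point)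
    (hP : mu h P ≠ 0) (hR : mu h R = 0) : cfn z (P + R) = ch F R * cfn z P := by
  rcases mu_ker_all h R hR with rfl | rfl
  · rw [add_zero, ch_zero, one_mul]
  · rw [cfn_add_tq h P hP, ch_tq]
    ring

/-! ### `z² = -2` -/

theorem mu_mu (h : IsS W z d) (P : W.Point) : mu h (mu h P) = -(2 • P) := by
  have hz := h.hz
  have hz0 := h.z0
  have hd := h.hd
  have ha1 : W.a₁ = 0 := by rw [h.eq, cs]
  have ha3 : W.a₃ = 0 := by rw [h.eq, cs]
  have ha2 : W.a₂ = 4 * d := by rw [h.eq, cs]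
  have ha4 : W.a₄ = 2 * d ^ 2 := by rw [h.eq, cs]
  by_cases hP : mu h P = 0
  · rw [hP, map_zero]
    rcases mu_ker_all h P hP with rfl | rfl
    · rw [smul_zero, neg_zero]
    · rw [two_nsmul, tq_add_self, neg_zero]
  obtain ⟨x, y, hn, rfl, hx⟩ := mu_ne_cases h P hP
  have hE := (h.nons x y).1 hn
  obtain ⟨x', y', hn', h1, h2, h3, h4⟩ := mu_some h hn hx
  rw [h1, two_nsmul]
  by_cases hy : y = 0
  · subst hy
    rw [double_zero W ha1 ha3 hn, neg_zero]
    exact mu_of_zero h hn' (by rw [h2]; simp)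
  · have hx' : x' ≠ 0 := by
      rw [h2]
      exact pow_ne_zero 2 (div_ne_zero hy (mul_ne_zero hz0 hx))
    obtain ⟨x'', y'', hn'', k1, k2, k3, k4⟩ := mu_some h hn' hx'
    obtain ⟨l, hl⟩ : ∃ l, l = (3 * x ^ 2 + 8 * d * x + 2 * d ^ 2) / (2 * y) := ⟨_, rfl⟩
    have hl' : l * (2 * y) = 3 * x ^ 2 + 8 * d * x + 2 * d ^ 2 := by
      rw [hl, div_mul_cancel₀ _ (mul_ne_zero two_ne_zero hy)]
    obtain ⟨hn3, e3⟩ := double_pt W ha1 ha3 two_ne_zero hn hy l _ _ (by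
      rw [ha2, ha4, hl']
      ring) rfl rfl
    obtain ⟨hn4, e4⟩ := neg_pt W ha1 ha3 hn3
    rw [k1, e3, e4]
    have hy3 : 8 * y ^ 3 ≠ 0 := mul_ne_zero (by norm_num) (pow_ne_zero 3 hy)
    have a1 : 2 * x * x' = -(x ^ 2 + 4 * d * x + 2 * d ^ 2) := by
      rw [h3]
      field_simp
    have a2 : y' * (4 * x ^ 2) = z * y * (x ^ 2 - 2 * d ^ 2) := by
      rw [h4]
      field_simp
    have a3 : y' * (2 * y) = -(z * x' * (x ^ 2 - 2 * d ^ 2)) := by
      refine mul_right_cancel₀ (mul_ne_zero two_ne_zero (pow_ne_zero 2 hx) : 2 * x ^ 2 ≠ 0) ?_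
      linear_combination y * a2 + z * (x ^ 2 - 2 * d ^ 2) * hE + z * (x ^ 2 - 2 * d ^ 2) * x * a1
    have a4 : y'' * (4 * x' ^ 2) = z * y' * (x' ^ 2 - 2 * d ^ 2) := by
      rw [k4]
      field_simp
    have a5 : x'' * (z * x') ^ 2 = y' ^ 2 := by
      rw [k2]
      field_simp
    have b1 : x'' * (4 * y ^ 2) = (x ^ 2 - 2 * d ^ 2) ^ 2 := by
      refine mul_right_cancel₀ (pow_ne_zero 2 (mul_ne_zero hz0 hx')) ?_
      linear_combination (4 * y ^ 2) * a5 +
        (y' * (2 * y) - z * x' * (x ^ 2 - 2 * d ^ 2)) * a3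
    have b2 : y'' * (4 * x' * y) = (x ^ 2 - 2 * d ^ 2) * (x' ^ 2 - 2 * d ^ 2) := by
      refine mul_right_cancel₀ (mul_ne_zero two_ne_zero hx' : 2 * x' ≠ 0) ?_
      linear_combination (2 * y) * a4 + z * (x' ^ 2 - 2 * d ^ 2) * a3 -
        (x' * (x ^ 2 - 2 * d ^ 2) * (x' ^ 2 - 2 * d ^ 2)) * hz
    have b3 : y'' * (8 * y ^ 3) = -((x ^ 2 - 2 * d ^ 2) *
        ((x ^ 2 + 4 * d * x + 2 * d ^ 2) ^ 2 - 8 * d ^ 2 * x ^ 2)) := by
      linear_combination (8 * y'' * y) * hE + (8 * y'' * y * x) * a1 - (4 * x ^ 2) * b2 -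
        (x ^ 2 - 2 * d ^ 2) * (2 * x * x' - (x ^ 2 + 4 * d * x + 2 * d ^ 2)) * a1
    refine pt_congr ?_ ?_ _ _
    · rw [ha2]
      refine mul_right_cancel₀ (mul_ne_zero (by norm_num) (pow_ne_zero 2 hy) : 4 * y ^ 2 ≠ 0) ?_
      rw [b1]
      linear_combination (-(l * (2 * y)) - (3 * x ^ 2 + 8 * d * x + 2 * d ^ 2)) * hl' +
        (16 * d + 8 * x) * hE
    · rw [ha2]
      refine mul_right_cancel₀ hy3 ?_
      rw [b3]
      linear_combination (-((l * (2 * y)) ^ 2 + l * (2 * y) * (3 * x ^ 2 + 8 * d * x + 2 * d ^ 2) +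
        (3 * x ^ 2 + 8 * d * x + 2 * d ^ 2) ^ 2) + 4 * y ^ 2 * (4 * d + 3 * x)) * hl' +
        (4 * (3 * x ^ 2 + 8 * d * x + 2 * d ^ 2) * (4 * d + 3 * x) -
          8 * (y ^ 2 + (x ^ 3 + 4 * d * x ^ 2 + 2 * d ^ 2 * x))) * hE

end

end Pool.Agent.Lib.MP_1a91b9_ntW.C
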