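import Pool.Agent.Lib.MP_1a91b9_ntW.C.Crv

/-!
# Divisibility by `z = sqrt (-2)` on `y² = x³ + 4 d x² + 2 d² x`

`Q = (x, y)`, `r² = x`, `r ≠ 0`: the point `P = (X, z r X)` with `X = - x - 2 d - y / r` is mapped to
`Q`.
-/

set_option autoImplicit false

namespace Pool.Agent.Lib.MP_1a91b9_ntW.C

open WeierstrassCurve
open scoped Classical

variable {F : Type*} [Field F] [CharZero F] {W : Affine F} {z d : F}

theorem exists_mu (h : IsS W z d) {x y : F}
    (hn : W.Nonsingular x y) (r : F) (hr : r ^ 2 = x) (hr0 : r ≠ 0) :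
    ∃ P : W.Point, mu h P = .some x y hn := by
  have hz := h.hz
  have hz0 := h.z0
  have hd := h.hd
  have hc := (h.nons x y).1 hn
  obtain ⟨s, hs⟩ : ∃ s, s = y / r := ⟨_, rfl⟩
  have hsr : s * r = y := by rw [hs, div_mul_cancel₀ _ hr0]
  have hs2 : s ^ 2 = x ^ 2 + 4 * d * x + 2 * d ^ 2 := by
    have h3 : s ^ 2 * r ^ 2 = (x ^ 2 + 4 * d * x + 2 * d ^ 2) * r ^ 2 := by
      rw [← mul_pow, hsr, hr]
      linear_combination hc
    exact mul_right_cancel₀ (pow_ne_zero 2 hr0) h3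
  obtain ⟨X, hX⟩ : ∃ X, X = -x - 2 * d - s := ⟨_, rfl⟩
  have e1 : X * (-x - 2 * d + s) = 2 * d ^ 2 := by
    rw [hX]
    linear_combination -hs2
  have hX0 : X ≠ 0 := by
    intro h0
    rw [h0, zero_mul] at e1
    exact mul_ne_zero two_ne_zero (pow_ne_zero 2 hd) e1.symm
  have hXY : (z * r * X) ^ 2 = X ^ 3 + 4 * d * X ^ 2 + 2 * d ^ 2 * X := by
    rw [mul_pow, mul_pow, hr]
    have e2 : X ^ 2 + 2 * (x + 2 * d) * X + 2 * d ^ 2 = 0 := by
      rw [hX]
      linear_combination hs2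
    linear_combination (x * X ^ 2) * hz - X * e2
  have hns : W.Nonsingular X (z * r * X) := (h.nons _ _).2 hXY
  have key : ∀ {x' y' : F} (hn' : W.Nonsingular x' y'), x' = x → y' = y →
      mu h (.some X (z * r * X) hns) = .some x' y' hn' →
      ∃ P : W.Point, mu h P = .some x y hn := by
    intro x' y' hn' ex ey e
    subst ex
    subst ey
    exact ⟨_, e⟩
  obtain ⟨x', y', hn', e1', e2', e3', e4'⟩ := mu_some h hns hX0
  refine key hn' ?_ ?_ e1'
  · rw [e2', ← hr]
    congr 1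
    field_simp
  · rw [e4']
    have e5 : X ^ 2 - 2 * d ^ 2 = -(2 * s * X) := by
      rw [hX]
      linear_combination -hs2
    rw [e5, ← hsr, div_eq_iff (mul_ne_zero (by norm_num) (pow_ne_zero 2 hX0))]
    linear_combination (-(2 * r * s * X ^ 2)) * hz

/-- a root of the quadratic -/
theorem exists_root (h : IsS W z d) {w : F} (hw : w ^ 2 = 2) (hn : W.Nonsingular ((w - 2) * d) 0) :
    mu h (.some ((w - 2) * d) 0 hn) = tq h := by
  have hw2 : w - 2 ≠ 0 := by
    intro h0
    have : w = 2 := sub_eq_zero.1 h0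
    rw [this] at hw
    norm_num at hw
  obtain ⟨x', y', hn', e1, e2, e3, e4⟩ := mu_some h hn (mul_ne_zero hw2 h.hd)
  rw [e1]
  refine pt_congr ?_ ?_ _ _
  · rw [e2, zero_div]
    ring
  · rw [e4, mul_zero, zero_mul, zero_div]

theorem root_nons (h : IsS W z d) {w : F} (hw : w ^ 2 = 2) : W.Nonsingular ((w - 2) * d) 0 := by
  refine (h.nons _ _).2 ?_
  linear_combination (-(w - 2) * d ^ 3) * hw

theorem exists_mu_closed [IsAlgClosed F] (h : IsS W z d) (Q : W.Point) :
    ∃ P : W.Point, mu h P = Q := by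
  cases Q with
  | zero => exact ⟨0, map_zero _⟩
  | some x y hn =>
    by_cases hx : x = 0
    · obtain ⟨w, hw⟩ := IsAlgClosed.exists_pow_nat_eq (2 : F) (n := 2) (by norm_num)
      refine ⟨.some _ _ (root_nons h hw), ?_⟩
      rw [exists_root h hw]
      subst hx
      exact pt_congr rfl (y_zero h hn).symm _ _
    · obtain ⟨r, hr⟩ := IsAlgClosed.exists_pow_nat_eq x (n := 2) (by norm_num)
      refine exists_mu h hn r hr ?_
      rintro rfl
      apply hx
      rw [← hr]
      ring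

end Pool.Agent.Lib.MP_1a91b9_ntW.C
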