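import Pool.Agent.Lib.MP_1a91b9_ntW.C.LocS

/-!
# MP_1a91b9_nt, `ℚ(√-2)`, part C: the local images of `y² = x³ + 4 d x² + 2 d² x` at `√-2`
-/

set_option autoImplicit false
set_option linter.unusedSectionVars false

namespace Pool.Agent.Lib.MP_1a91b9_ntW.C

open WithZero
open Pool.Agent.Lib.MP_1a91b9_ntH.C (Sq exists_nu isSquare_exp nu_one exists_exp)

variable {L : Type*} [Field L] [CharZero L] {ν : Valuation L ℤᵐ⁰}

theorem ltle {g : ℤᵐ⁰} {m : ℤ} (h : g < exp m) : g ≤ exp (m - 1) := by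
  by_cases h0 : g = 0
  · rw [h0]
    exact zero_le
  · obtain ⟨n, rfl⟩ := exists_exp h0
    rw [exp_lt_exp] at h
    rw [exp_le_exp]
    omega

theorem add_le1 {x y : L} (hx : ν x ≤ 1) (hy : ν y ≤ 1) : ν (x + y) ≤ 1 := ν.map_add_le hx hy

theorem sub_le1 {x y : L} (hx : ν x ≤ 1) (hy : ν y ≤ 1) : ν (x - y) ≤ 1 := by
  rw [sub_eq_add_neg]
  exact ν.map_add_le hx (by rwa [Valuation.map_neg])

theorem mul_le1 {x y : L} (hx : ν x ≤ 1) (hy : ν y ≤ 1) : ν (x * y) ≤ 1 := by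
  rw [map_mul]
  exact mul_le_one' hx hy

theorem pow_le1 {x : L} (hx : ν x ≤ 1) (n : ℕ) : ν (x ^ n) ≤ 1 := by
  rw [map_pow]
  exact pow_le_one₀ zero_le hx

section
variable {z : L} (hz : z ^ 2 = -2) (hν : ν z = exp (-1))
include hz hν

theorem z_ne : z ≠ 0 := by
  rintro rfl
  norm_num at hz

theorem z_le : ν z ≤ 1 := by
  rw [hν, ← exp_zero, exp_le_exp]
  norm_num

theorem nu_zpow (n : ℕ) : ν (z ^ n) = exp (-(n : ℤ)) := by
  rw [map_pow, hν, ← exp_nsmul]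
  congr 1
  simp

theorem nu2 : ν 2 = exp (-2) := by
  have e : (2 : L) = -z ^ 2 := by rw [hz]; ring
  rw [e, Valuation.map_neg, nu_zpow hz hν]
  rfl

theorem nu4 : ν 4 = exp (-4) := by
  have e : (4 : L) = z ^ 4 := by linear_combination (2 - z ^ 2) * hz
  rw [e, nu_zpow hz hν]
  rfl

theorem nu16 : ν 16 = exp (-8) := by
  have e : (16 : L) = 4 * 4 := by norm_num
  rw [e, map_mul, nu4 hz hν, ← exp_add]
  rfl

theorem nu4_le : ν 4 ≤ 1 := by
  rw [nu4 hz hν, ← exp_zero, exp_le_exp]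
  norm_num

theorem nu2_le : ν 2 ≤ 1 := by
  rw [nu2 hz hν, ← exp_zero, exp_le_exp]
  norm_num

/-- `x` is divisible by `z ^ n` -/
theorem nu_mul_zpow {x : L} (hx : ν x ≤ 1) (n : ℕ) : ν (z ^ n * x) ≤ exp (-(n : ℤ)) := by
  rw [map_mul, nu_zpow hz hν]
  exact mul_le_of_le_one_right' hx

theorem div_z {y : L} (n : ℕ) (hy : ν y ≤ exp (-(n : ℤ))) : ∃ t : L, ν t ≤ 1 ∧ y = z ^ n * t := by
  have hz0 := z_ne hz hν
  refine ⟨y / z ^ n, ?_, by field_simp⟩
  rw [map_div₀, nu_zpow hz hν]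
  exact (div_le_one₀ exp_pos).2 hy

variable (hres : ∀ x : L, ν x = 1 → ν (x - 1) < 1)
include hres

theorem unit_z {x : L} (hx : ν x = 1) : ∃ r : L, ν r ≤ 1 ∧ x = 1 + z * r := by
  have h := hres x hx
  rw [← exp_zero] at h
  obtain ⟨t, ht, h1⟩ := div_z hz hν 1 (ltle h)
  exact ⟨t, ht, by linear_combination h1⟩

theorem res_z {y : L} (hy : ν y ≤ 1) : ∃ t : L, ν t ≤ 1 ∧ (y = z * t ∨ y = 1 + z * t) := by
  rcases hy.lt_or_eq with h | h
  · rw [← exp_zero] at h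
    obtain ⟨t, ht, h1⟩ := div_z hz hν 1 (ltle h)
    exact ⟨t, ht, Or.inl (by linear_combination h1)⟩
  · obtain ⟨t, ht, h1⟩ := unit_z hz hν hres h
    exact ⟨t, ht, Or.inr h1⟩

/-- the square of a unit is `1` modulo `z ^ 2` -/
theorem sq_unit {x : L} (hx : ν x = 1) : ∃ r : L, ν r ≤ 1 ∧ x ^ 2 = 1 + z ^ 2 * r := by
  obtain ⟨r, hr, rfl⟩ := unit_z hz hν hres hx
  exact ⟨r ^ 2 - z * r, sub_le1 (pow_le1 hr 2) (mul_le1 (z_le hz hν) hr), by
    linear_combination (z * r) * hz⟩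

/-- `-1` is not a square -/
theorem no_sqrt {w : L} (hw : ν (w ^ 2 / 2 - 1) < ν 16) : False := by
  have hz0 := z_ne hz hν
  have hz1 := z_le hz hν
  obtain ⟨t, ht⟩ : ∃ t, t = w / z := ⟨_, rfl⟩
  have hw' : w = z * t := by
    rw [ht]
    field_simp
  have e : w ^ 2 / 2 - 1 = -(t ^ 2 + 1) := by
    rw [hw', mul_pow, hz]
    ring
  rw [e, Valuation.map_neg, nu16 hz hν] at hw
  have h1 : ν (t ^ 2) = 1 := by
    have e1 : t ^ 2 = (t ^ 2 + 1) - 1 := by ring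
    rw [e1, nu_subr, map_one]
    rw [map_one]
    refine hw.trans ?_
    rw [← exp_zero, exp_lt_exp]
    norm_num
  have h2 : ν t = 1 := by
    rw [map_pow] at h1
    exact (pow_eq_one_iff_of_nonneg zero_le two_ne_zero).1 h1
  obtain ⟨r, hr, hrt⟩ := unit_z hz hν hres h2
  have e2 : t ^ 2 + 1 = z ^ 2 * (r ^ 2 - 1 - z * r) := by
    rw [hrt]
    linear_combination (1 + z * r) * hz
  have h3 : ν (r ^ 2 - 1 - z * r) < exp (-1) := by
    rw [e2, map_mul, nu_zpow hz hν] at hw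
    have e3 : (exp (-8) : ℤᵐ⁰) = exp (-((2 : ℕ) : ℤ)) * exp (-6) := by
      rw [← exp_add]
      rfl
    rw [e3] at hw
    have h4 := lt_of_mul_lt_mul_left' hw
    refine h4.trans ?_
    rw [exp_lt_exp]
    norm_num
  obtain ⟨s, hs, h5 | h5⟩ := res_z hz hν hres hr
  · have e3 : r ^ 2 - 1 - z * r = z * (s * r - r) - 1 := by
      rw [pow_two]
      nth_rewrite 1 [h5]
      ring
    rw [e3, nu_subr, map_one] at h3
    · have : (exp (-1) : ℤᵐ⁰) < 1 := by
        rw [← exp_zero, exp_lt_exp]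
        norm_num
      exact lt_irrefl _ (h3.trans this)
    · rw [map_one]
      have h6 := nu_mul_zpow hz hν (sub_le1 (mul_le1 hs hr) hr) 1
      rw [pow_one] at h6
      refine h6.trans_lt ?_
      rw [← exp_zero, exp_lt_exp]
      norm_num
  · have e3 : r ^ 2 - 1 - z * r = z ^ 2 * (s ^ 2 - z * s - s) - z := by
      rw [h5]
      linear_combination (z * s) * hz
    rw [e3, nu_subr, hν] at h3
    · exact lt_irrefl _ h3
    · rw [hν]
      have h6 := nu_mul_zpow hz hν (sub_le1 (sub_le1 (pow_le1 hs 2) (mul_le1 hz1 hs)) hs) 2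
      refine h6.trans_lt ?_
      rw [exp_lt_exp]
      norm_num

omit hres in
/-- the point `x` is replaced by `x + (0, 0)` -/
theorem flip {d a x : L} (hd : d ≠ 0) (hx0 : x ≠ 0)
    (hx : Sq ν (x * (x ^ 2 + 4 * d * x + 2 * d ^ 2))) (ha : Sq ν (a * x)) :
    Sq ν ((2 * d ^ 2 / x) * ((2 * d ^ 2 / x) ^ 2 + 4 * d * (2 * d ^ 2 / x) + 2 * d ^ 2)) ∧
      Sq ν (-a * (2 * d ^ 2 / x)) := by
  have hz0 := z_ne hz hν
  constructor
  · have e : (2 * d ^ 2 / x) * ((2 * d ^ 2 / x) ^ 2 + 4 * d * (2 * d ^ 2 / x) + 2 * d ^ 2) =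
        x * (x ^ 2 + 4 * d * x + 2 * d ^ 2) * (2 * d ^ 2 / x ^ 2) ^ 2 := by
      field_simp
      ring
    rw [e]
    have h1 := hx.mul (nu4_le hz hν) (Sq.of_isSquare (ν := ν)
      (u := (2 * d ^ 2 / x ^ 2) ^ 2) ⟨_, pow_two _⟩ (pow_ne_zero 2 (div_ne_zero (mul_ne_zero two_ne_zero (pow_ne_zero 2 hd)) (pow_ne_zero 2 hx0))))
    exact h1
  · have e : -a * (2 * d ^ 2 / x) = a * x * (z * d / x) ^ 2 := by
      have e1 : (2 : L) = -z ^ 2 := by rw [hz]; ring
      rw [e1]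
      field_simp
    rw [e]
    exact ha.mul (nu4_le hz hν) (Sq.of_isSquare ⟨_, pow_two _⟩
      (pow_ne_zero 2 (div_ne_zero (mul_ne_zero hz0 hd) hx0)))

omit hres in
/-- the points with a large abscissa -/
theorem caseA {d x : L} (hx0 : x ≠ 0)
    (hx : Sq ν (x * (x ^ 2 + 4 * d * x + 2 * d ^ 2))) :
    Sq ν (x * (1 + 4 * (d / x) + 2 * (d / x) ^ 2)) := by
  refine Sq.of_mul_sq hx0 ?_
  have e : x * (1 + 4 * (d / x) + 2 * (d / x) ^ 2) * x ^ 2 =
      x * (x ^ 2 + 4 * d * x + 2 * d ^ 2) := by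
    field_simp
  rwa [e]

omit hres in
theorem evenA {d x : L} (ht : ν (d / x) ≤ 1) (hx0 : x ≠ 0)
    (hx : Sq ν (x * (x ^ 2 + 4 * d * x + 2 * d ^ 2))) : IsSquare (ν x) := by
  have h := (caseA hz hν hx0 hx).even (nu4_le hz hν)
  have e : 1 + 4 * (d / x) + 2 * (d / x) ^ 2 = 1 + 2 * (2 * (d / x) + (d / x) ^ 2) := by ring
  have h1 : ν (2 * (2 * (d / x) + (d / x) ^ 2)) < 1 := by
    have h2 := add_le1 (mul_le1 (nu2_le hz hν) ht) (pow_le1 ht 2)
    rw [map_mul, nu2 hz hν]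
    refine (mul_le_of_le_one_right' h2).trans_lt ?_
    rw [← exp_zero, exp_lt_exp]
    norm_num
  rw [map_mul, e, ν.map_one_add_of_lt h1, mul_one] at h
  exact h

/-- a unit which is a square is `1` modulo `z ^ 2` -/
theorem sq_one2 {u : L} (h : Sq ν u) (hu : ν u = 1) : ν (u - 1) ≤ exp (-2) := by
  obtain ⟨b, hb, h⟩ := h
  have hνb : ν b ≠ 0 := ν.ne_zero_iff.2 hb
  have h1 : ν (u / b ^ 2) = 1 := nu_one (nu4_le hz hν) h
  have hvb : ν b = 1 := by
    rw [map_div₀, map_pow, hu, div_eq_one_iff_eq (pow_ne_zero 2 hνb)] at h1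
    exact (pow_eq_one_iff_of_nonneg zero_le two_ne_zero).1 h1.symm
  obtain ⟨r, hr, hbr⟩ := sq_unit hz hν hres hvb
  have e : u - 1 = z ^ 2 * r + b ^ 2 * (u / b ^ 2 - 1) := by
    have e1 : b ^ 2 * (u / b ^ 2 - 1) = u - b ^ 2 := by field_simp
    rw [e1, hbr]
    ring
  rw [e]
  refine ν.map_add_le (nu_mul_zpow hz hν hr 2) ?_
  rw [map_mul, map_pow, hvb, one_pow, one_mul]
  refine h.le.trans ?_
  rw [nu4 hz hν, exp_le_exp]
  norm_num

omit hz hν hres in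
theorem one_of2 {a : L} (ha : ν (a - 1) ≤ exp (-2)) : ν a = 1 := by
  have := ν.map_one_add_of_lt (x := a - 1) (ha.trans_lt (by
    rw [← exp_zero, exp_lt_exp]
    norm_num))
  rwa [add_sub_cancel] at this

omit hz hν hres in
theorem mul_one2 {a b : L} (ha : ν (a - 1) ≤ exp (-2)) (hb : ν (b - 1) ≤ exp (-2)) :
    ν (a * b - 1) ≤ exp (-2) := by
  have e : a * b - 1 = a * (b - 1) + (a - 1) := by ring
  rw [e]
  refine ν.map_add_le ?_ ha
  rw [map_mul, one_of2 ha, one_mul]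
  exact hb

omit hres in
theorem neg_one2 {a : L} (ha : ν (a - 1) ≤ exp (-2)) : ν (-a - 1) ≤ exp (-2) := by
  have e : -a - 1 = -(a - 1) - 2 := by ring
  rw [e]
  refine ν.map_sub_le (by rwa [Valuation.map_neg]) (nu2 hz hν).le

omit hres in
theorem two_one2 {a : L} (ha : ν a ≤ 1) : ν (1 + 2 * a - 1) ≤ exp (-2) := by
  rw [add_sub_cancel_left, map_mul, nu2 hz hν]
  exact mul_le_of_le_one_right' ha

/-- `d = 1` modulo `z ^ 2` -/
theorem refineA {d x : L} (hd : ν (d - 1) ≤ exp (-2)) (ht : ν (d / x) ≤ 1) (hx0 : x ≠ 0)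
    (hx : Sq ν (x * (x ^ 2 + 4 * d * x + 2 * d ^ 2))) : Sq ν x ∨ Sq ν (-x) := by
  have hz1 := z_le hz hν
  have h2 := nu2_le hz hν
  have h4 := nu4_le hz hν
  have hev := evenA hz hν ht hx0 hx
  have hA := caseA hz hν hx0 hx
  have hvd : ν d = 1 := one_of2 hd
  obtain ⟨t, htd⟩ : ∃ t, t = d / x := ⟨_, rfl⟩
  rw [← htd] at hA ht
  have hxt : x * t = d := by rw [htd, mul_div_cancel₀ _ hx0]
  have hνxt : ν x * ν t = 1 := by rw [← map_mul, hxt, hvd]
  rcases ht.lt_or_eq with ht1 | ht1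
  · -- `t = z ^ 2 s`
    have ht2 : ν t ≤ exp (-2) := by
      rw [← exp_zero] at ht1
      refine (ltle ht1).lt_or_eq.elim (fun h => ltle h) fun h => ?_
      exfalso
      obtain ⟨n, hn⟩ := exists_nu ν hx0
      rw [hn, isSquare_exp] at hev
      rw [hn, h, ← exp_add, ← exp_zero, exp_inj] at hνxt
      obtain ⟨m, hm⟩ := hev
      omega
    left
    refine hA.cancel h4 (Sq.one ?_)
    obtain ⟨s, hs, hts⟩ := div_z hz hν 2 ht2
    have e : 1 + 4 * t + 2 * t ^ 2 - 1 = z ^ 6 * (s - s ^ 2) := by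
      rw [hts]
      linear_combination (-z ^ 4 * s + 2 * z ^ 2 * s + z ^ 4 * s ^ 2) * hz
    rw [e, nu4 hz hν]
    refine (nu_mul_zpow hz hν (sub_le1 hs (pow_le1 hs 2)) 6).trans_lt ?_
    rw [exp_lt_exp]
    norm_num
  · right
    obtain ⟨r, hr, htr⟩ := unit_z hz hν hres ht1
    have hvx : ν x = 1 := by rwa [ht1, mul_one] at hνxt
    have hA2 : ν (1 + 4 * t + 2 * t ^ 2 - 1) ≤ exp (-2) := by
      have e : 1 + 4 * t + 2 * t ^ 2 = 1 + 2 * (2 * t + t ^ 2) := by ring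
      rw [e]
      exact two_one2 hz hν (add_le1 (mul_le1 h2 ht) (pow_le1 ht 2))
    have hvxA : ν (x * (1 + 4 * t + 2 * t ^ 2)) = 1 := by
      rw [map_mul, hvx, one_of2 hA2, one_mul]
    have h5 : ν (t - 1) ≤ exp (-2) := by
      have e : (t - 1) * (x * (1 + 4 * t + 2 * t ^ 2)) =
          (d * (1 + 4 * t + 2 * t ^ 2) - 1) - (x * (1 + 4 * t + 2 * t ^ 2) - 1) := by
        rw [← hxt]
        ring
      have h6 : ν ((t - 1) * (x * (1 + 4 * t + 2 * t ^ 2))) ≤ exp (-2) := by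
        rw [e]
        exact ν.map_sub_le (mul_one2 hd hA2) (sq_one2 hz hν hres hA hvxA)
      rwa [map_mul, hvxA, mul_one] at h6
    obtain ⟨r', hr', htr'⟩ := div_z hz hν 2 h5
    have e : -(1 + 4 * t + 2 * t ^ 2) - 1 = z ^ 6 * (1 + z ^ 2 * r' + r' ^ 2) := by
      have e1 : t = 1 + z ^ 2 * r' := by linear_combination htr'
      rw [e1]
      linear_combination ((-z ^ 4 + 2 * z ^ 2 - 4) * (1 + z ^ 2 * r') - z ^ 4 * r' ^ 2) * hz
    have h7 : Sq ν (-(1 + 4 * t + 2 * t ^ 2)) := by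
      refine Sq.one ?_
      rw [e, nu4 hz hν]
      refine (nu_mul_zpow hz hν (add_le1 (add_le1 (map_one ν).le
        (mul_le1 (pow_le1 hz1 2) hr')) (pow_le1 hr' 2)) 6).trans_lt ?_
      rw [exp_lt_exp]
      norm_num
    refine Sq.cancel (x := -(1 + 4 * t + 2 * t ^ 2)) h4 ?_ h7
    rwa [neg_mul_neg]

/-- the points with `x = z d s` -/
theorem caseB {d s : L} (hd : ν d = 1) (hs : ν s = 1)
    (hx : Sq ν ((z * d * s) * ((z * d * s) ^ 2 + 4 * d * (z * d * s) + 2 * d ^ 2))) :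
    ∃ σ : L, ν σ ≤ 1 ∧ s = 1 + 2 * z - 2 * σ ∧
      Sq ν (-(d * s * (1 - 2 * σ + z * (σ * (1 - σ))))) := by
  have hz1 := z_le hz hν
  have hz0 := z_ne hz hν
  have h4 := nu4_le hz hν
  have hd0 : d ≠ 0 := by
    rintro rfl
    rw [map_zero] at hd
    exact zero_ne_one hd
  obtain ⟨r, hr, hsr⟩ := unit_z hz hν hres hs
  obtain ⟨ρ, hρ⟩ : ∃ ρ, ρ = r - 1 := ⟨_, rfl⟩
  have hρ1 : ν ρ ≤ 1 := by
    rw [hρ]
    exact sub_le1 hr (map_one ν).le
  have e : (z * d * s) * ((z * d * s) ^ 2 + 4 * d * (z * d * s) + 2 * d ^ 2) =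
      z * d * s * (ρ ^ 2 - z * ρ - 1) * (2 * d) ^ 2 := by
    have e1 : s = 1 + z * (ρ + 1) := by rw [hsr, hρ]; ring
    rw [e1]
    linear_combination (z * d * (1 + z * (ρ + 1)) * d ^ 2 * ((1 + z * (ρ + 1)) ^ 2 -
      2 * (ρ + 1) ^ 2 + 4 * (ρ + 1)) ) * hz
  rw [e] at hx
  have h5 := Sq.of_mul_sq (mul_ne_zero two_ne_zero hd0) hx
  have h6 := h5.even h4
  rw [map_mul, map_mul, map_mul, hν, hd, hs, mul_one, mul_one] at h6
  obtain ⟨σ, hσ, h7 | h7⟩ := res_z hz hν hres hρ1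
  · exfalso
    have h8 : ν (ρ ^ 2 - z * ρ - 1) = 1 := by
      have h9 : ν (ρ ^ 2 - z * ρ) < ν 1 := by
        have e1 : ρ ^ 2 - z * ρ = z ^ 2 * (σ ^ 2 - σ) := by rw [h7]; ring
        rw [e1, map_one]
        refine (nu_mul_zpow hz hν (sub_le1 (pow_le1 hσ 2) hσ) 2).trans_lt ?_
        rw [← exp_zero, exp_lt_exp]
        norm_num
      rw [nu_subr h9, map_one]
    rw [h8, mul_one, isSquare_exp] at h6
    exact absurd h6 (by decide)
  · refine ⟨σ, hσ, ?_, ?_⟩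
    · have e1 : r = 2 + z * σ := by linear_combination -hρ + h7
      rw [hsr, e1]
      linear_combination σ * hz
    · refine Sq.of_mul_sq hz0 ?_
      have e1 : -(d * s * (1 - 2 * σ + z * (σ * (1 - σ)))) * z ^ 2 =
          z * d * s * (ρ ^ 2 - z * ρ - 1) := by
        rw [h7]
        ring
      rwa [e1]

/-- the points -/
theorem pointL {d a x : L} (hd0 : d ≠ 0) (hx0 : x ≠ 0)
    (hx : Sq ν (x * (x ^ 2 + 4 * d * x + 2 * d ^ 2))) (ha : Sq ν (a * x)) :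
    (∃ x' a' : L, x' ≠ 0 ∧ ν (d / x') ≤ 1 ∧ (a' = a ∨ a' = -a) ∧
      Sq ν (x' * (x' ^ 2 + 4 * d * x' + 2 * d ^ 2)) ∧ Sq ν (a' * x')) ∨
    ∃ s : L, ν s = 1 ∧ x = z * d * s := by
  have hz0 := z_ne hz hν
  have key : ∀ x' : L, x' ≠ 0 → ν (z * d) < ν x' → ν (d / x') ≤ 1 := by
    intro x' hx' h
    rw [map_div₀]
    refine div_le_one_of_le₀ ?_ zero_le
    obtain ⟨n, hn⟩ := exists_nu ν hx'
    obtain ⟨m, hm⟩ := exists_nu ν hd0
    rw [map_mul, hν, hn, hm, ← exp_add, exp_lt_exp] at h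
    rw [hn, hm, exp_le_exp]
    omega
  rcases lt_trichotomy (ν (z * d)) (ν x) with h | h | h
  · exact Or.inl ⟨x, a, hx0, key x hx0 h, Or.inl rfl, hx, ha⟩
  · right
    have hzd : z * d ≠ 0 := mul_ne_zero hz0 hd0
    refine ⟨x / (z * d), ?_, by field_simp⟩
    rw [map_div₀, ← h, div_self (ν.ne_zero_iff.2 hzd)]
  · left
    obtain ⟨h1, h2⟩ := flip hz hν hd0 hx0 hx ha
    have hx' : 2 * d ^ 2 / x ≠ 0 := div_ne_zero (mul_ne_zero two_ne_zero (pow_ne_zero 2 hd0)) hx0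
    refine ⟨2 * d ^ 2 / x, -a, hx', key _ hx' ?_, Or.inr rfl, h1, h2⟩
    obtain ⟨n, hn⟩ := exists_nu ν hx0
    obtain ⟨m, hm⟩ := exists_nu ν hd0
    rw [map_mul, hν, hn, hm, ← exp_add, exp_lt_exp] at h
    rw [map_mul, map_div₀, map_mul, map_pow, hν, hn, hm, nu2 hz hν, ← exp_add, ← exp_nsmul,
      ← exp_add, ← exp_sub, exp_lt_exp]
    simp only [nsmul_eq_mul, Nat.cast_ofNat]
    omega

/-- `d` is `z`, or `1 + z`, modulo `z ^ 2`: the classes have even values -/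
theorem locL_even {d a : L} (hd : ν d = exp (-1) ∨ (ν d = 1 ∧ ν (d - 1) = exp (-1)))
    (h : GLocS ν d a) : IsSquare (ν a) := by
  have h4 := nu4_le hz hν
  have hd0 : d ≠ 0 := by
    rintro rfl
    rw [map_zero] at hd
    rcases hd with h | h
    · exact exp_ne_zero h.symm
    · exact zero_ne_one h.1
  rcases h with h | h | ⟨w, hw0, hw, h⟩ | ⟨x, hx0, hx, h⟩
  · exact h.even h4
  · have h1 := h.even h4
    rwa [Valuation.map_neg] at h1
  · exact (no_sqrt hz hν hres hw).elim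
  · have key : ∀ a' x' : L, a' ≠ 0 → x' ≠ 0 → IsSquare (ν x') → Sq ν (a' * x') →
        IsSquare (ν a') := by
      intro a' x' ha0 hx0 hx h
      obtain ⟨n, hn⟩ := exists_nu ν hx0
      obtain ⟨m, hm⟩ := exists_nu ν ha0
      have h1 := h.even h4
      rw [map_mul, hn, hm, ← exp_add, isSquare_exp] at h1
      rw [hn, isSquare_exp] at hx
      rw [hm, isSquare_exp]
      obtain ⟨r, hr⟩ := hx
      obtain ⟨s, hs⟩ := h1
      exact ⟨s - r, by omega⟩
    have ha0 : a ≠ 0 := fun h0 => h.ne h4 (by rw [h0, zero_mul])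
    rcases pointL hz hν hres hd0 hx0 hx h with ⟨x', a', hx'0, hx', haa, h1, h2⟩ | ⟨s, hs, hxs⟩
    · have h3 := evenA hz hν hx' hx'0 h1
      rcases haa with rfl | rfl
      · exact key _ x' ha0 hx'0 h3 h2
      · have := key _ x' (neg_ne_zero.2 ha0) hx'0 h3 h2
        rwa [Valuation.map_neg] at this
    · rcases hd with hd | ⟨hd, hd1⟩
      · refine key a x ha0 hx0 ?_ h
        rw [hxs, map_mul, map_mul, hν, hd, hs, mul_one]
        exact ⟨_, rfl⟩
      · exfalso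
        rw [hxs] at hx
        obtain ⟨σ, hσ, hsσ, h1⟩ := caseB hz hν hres hd hs hx
        have hz1 := z_le hz hν
        have h2 := nu2_le hz hν
        have h5 : ν (s - 1) ≤ exp (-2) := by
          have e : s = 1 + 2 * (z - σ) := by rw [hsσ]; ring
          rw [e]
          exact two_one2 hz hν (sub_le1 hz1 hσ)
        have h6 : ν (1 - 2 * σ + z * (σ * (1 - σ)) - 1) ≤ exp (-2) := by
          obtain ⟨t, ht, h7⟩ : ∃ t : L, ν t ≤ 1 ∧ σ * (1 - σ) = z * t := by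
            obtain ⟨t, ht, h7 | h7⟩ := res_z hz hν hres hσ
            · exact ⟨t * (1 - σ), mul_le1 ht (sub_le1 (map_one ν).le hσ), by
                nth_rewrite 1 [h7]; ring⟩
            · refine ⟨-(t * σ), by rw [Valuation.map_neg]; exact mul_le1 ht hσ, ?_⟩
              have e : 1 - σ = -(z * t) := by rw [h7]; ring
              rw [e]
              ring
          have e : 1 - 2 * σ + z * (σ * (1 - σ)) = 1 + 2 * (-(σ + t)) := by
            rw [h7]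
            linear_combination t * hz
          rw [e]
          exact two_one2 hz hν (by rw [Valuation.map_neg]; exact add_le1 hσ ht)
        have h7 := mul_one2 h5 h6
        have h8 : ν (-(d * s * (1 - 2 * σ + z * (σ * (1 - σ))))) = 1 := by
          rw [Valuation.map_neg, mul_assoc, map_mul, one_of2 h7, hd, mul_one]
        have h9 := sq_one2 hz hν hres h1 h8
        obtain ⟨u, hu⟩ : ∃ u, u = s * (1 - 2 * σ + z * (σ * (1 - σ))) := ⟨_, rfl⟩
        rw [mul_assoc, ← hu] at h9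
        rw [← hu] at h7
        have h10 := neg_one2 hz hν h9
        rw [neg_neg] at h10
        have h11 : ν (d - 1) ≤ exp (-2) := by
          have e : (d - 1) * u = (d * u - 1) - (u - 1) := by ring
          have h12 : ν ((d - 1) * u) ≤ exp (-2) := by
            rw [e]
            exact ν.map_sub_le h10 h7
          rwa [map_mul, one_of2 h7, mul_one] at h12
        rw [hd1, exp_le_exp] at h11
        norm_num at h11

/-- `d = 1` modulo `z ^ 2` -/
theorem locL_one {d a : L} (hd : ν (d - 1) ≤ exp (-2)) (h : GLocS ν d a) :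
    Sq ν a ∨ Sq ν (-a) ∨ ∃ σ : L, ν σ ≤ 1 ∧
      Sq ν (-(d * (1 + 2 * z - 2 * σ) * (1 - 2 * σ + z * (σ * (1 - σ))))) ∧
      Sq ν (a * (z * d * (1 + 2 * z - 2 * σ))) := by
  have h4 := nu4_le hz hν
  have hd1 := one_of2 hd
  have hd0 : d ≠ 0 := by
    rintro rfl
    rw [map_zero] at hd1
    exact zero_ne_one hd1
  rcases h with h | h | ⟨w, hw0, hw, h⟩ | ⟨x, hx0, hx, h⟩
  · exact Or.inl h
  · exact Or.inr (Or.inl h)
  · exact (no_sqrt hz hν hres hw).elim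
  · rcases pointL hz hν hres hd0 hx0 hx h with ⟨x', a', hx'0, hx', haa, h1, h2⟩ | ⟨s, hs, hxs⟩
    · have h5 : Sq ν a' ∨ Sq ν (-a') := by
        rcases refineA hz hν hres hd hx' hx'0 h1 with h3 | h3
        · exact Or.inl (h2.cancel h4 h3)
        · right
          refine Sq.cancel (x := -x') h4 ?_ h3
          rwa [neg_mul_neg]
      rcases haa with rfl | rfl
      · rcases h5 with h5 | h5
        · exact Or.inl h5
        · exact Or.inr (Or.inl h5)
      · rcases h5 with h5 | h5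
        · exact Or.inr (Or.inl h5)
        · rw [neg_neg] at h5
          exact Or.inl h5
    · right; right
      rw [hxs] at hx h
      obtain ⟨σ, hσ, hsσ, h1⟩ := caseB hz hν hres hd1 hs hx
      rw [hsσ] at h h1
      exact ⟨σ, hσ, h1, h⟩

end

end Pool.Agent.Lib.MP_1a91b9_ntW.C
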