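import Pool.Agent.Lib.MP_1a91b9_ntH.C.V
import Pool.Agent.Lib.MP_1a91b9_ntW.C.LocDefs

/-!
# MP_1a91b9_nt, `ℚ(√-2)`, part C: the local images of `y² = x³ + 4 d x² + 2 d² x` at the odd places
-/

set_option autoImplicit false
set_option linter.unusedSectionVars false

namespace Pool.Agent.Lib.MP_1a91b9_ntW.C

open WithZero
open Pool.Agent.Lib.MP_1a91b9_ntH.C (Sq exists_nu isSquare_exp nu_one)

variable {L : Type*} [Field L] [CharZero L] {ν : Valuation L ℤᵐ⁰}

theorem nu_subl {x y : L} (h : ν y < ν x) : ν (x - y) = ν x := by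
  rw [sub_eq_add_neg, ν.map_add_eq_of_lt_left (by rwa [Valuation.map_neg])]

theorem nu_subr {x y : L} (h : ν x < ν y) : ν (x - y) = ν y := by
  rw [sub_eq_add_neg, ν.map_add_eq_of_lt_right (by rwa [Valuation.map_neg]), Valuation.map_neg]

/-- `a x` and `x y` are squares, so `a y` is a square -/
theorem Sq.trans' {a x y : L} (h4 : ν 4 ≤ 1) (h : Sq ν (a * x))
    (h' : Sq ν (x * y)) : Sq ν (a * y) := by
  have hx : x ≠ 0 := fun h0 => h.ne h4 (by rw [h0, mul_zero])
  have h1 := h.mul h4 h'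
  have e : a * x * (x * y) = a * y * x ^ 2 := by ring
  rw [e] at h1
  exact Sq.of_mul_sq hx h1

/-- `u` is a square and `v = u (1 + small)` -/
theorem Sq.congr' {u v : L} (h4 : ν 4 ≤ 1) (h : Sq ν u)
    (hv : ν (v / u - 1) < ν 4) : Sq ν v := by
  have h1 : Sq ν (1 * u) := by rwa [one_mul]
  have h2 := h1.near h4 hv
  rwa [one_mul] at h2

/-- `- u` is a square if `2 u` is -/
theorem Sq.two {z u : L} (hz : z ^ 2 = -2) (h : Sq ν (u * 2)) : Sq ν (-u) := by
  have hz0 : z ≠ 0 := by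
    rintro rfl
    norm_num at hz
  refine Sq.of_mul_sq hz0 ?_
  rw [hz]
  have e : -u * -2 = u * 2 := by ring
  rwa [e]

theorem odd_three {n : ℤ} (h : Even (n + 2 * n)) : Even n := by
  obtain ⟨m, hm⟩ := h
  exact ⟨m - n, by omega⟩

/-- the quadratic factor -/
theorem gg_eq (d x : L) : x ^ 2 + 4 * d * x + 2 * d ^ 2 = (x + 2 * d) ^ 2 - 2 * d ^ 2 := by ring

/-- the good odd places -/
theorem locS_even {d a : L} (h2 : ν 2 = 1) (hd : ν d = 1) (h : GLocS ν d a) :
    IsSquare (ν a) := by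
  have h4 : ν 4 = 1 := by
    rw [show (4 : L) = 2 * 2 by norm_num, map_mul, h2, one_mul]
  have h16 : ν 16 = 1 := by
    rw [show (16 : L) = 4 * 4 by norm_num, map_mul, h4, one_mul]
  have hd0 : d ≠ 0 := by
    rintro rfl
    rw [map_zero] at hd
    exact zero_ne_one hd
  have key : ∀ x : L, x ≠ 0 → IsSquare (ν x) → Sq ν (a * x) → IsSquare (ν a) := by
    intro x hx0 hx h
    have ha0 : a ≠ 0 := fun h0 => h.ne h4.le (by rw [h0, zero_mul])
    obtain ⟨n, hn⟩ := exists_nu ν hx0
    obtain ⟨m, hm⟩ := exists_nu ν ha0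
    have h1 := h.even h4.le
    rw [map_mul, hn, hm, ← exp_add, isSquare_exp] at h1
    rw [hn, isSquare_exp] at hx
    rw [hm, isSquare_exp]
    obtain ⟨r, hr⟩ := hx
    obtain ⟨s, hs⟩ := h1
    exact ⟨s - r, by omega⟩
  have hdd : ν (2 * d ^ 2) = 1 := by rw [map_mul, map_pow, h2, hd, one_pow, mul_one]
  rcases h with h | h | ⟨w, hw0, hw, h⟩ | ⟨x, hx0, hx, h⟩
  · exact h.even h4.le
  · have h1 := h.even h4.le
    rwa [Valuation.map_neg] at h1
  · refine key ((w - 2) * d) (mul_ne_zero hw0 hd0) ?_ h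
    rw [h16] at hw
    have h3 : ν (w ^ 2 - 2) < 1 := by
      have e : w ^ 2 - 2 = 2 * (w ^ 2 / 2 - 1) := by
        field_simp
      rw [e, map_mul, h2, one_mul]
      exact hw
    have h5 : ν ((w - 2) * (w + 2)) = 1 := by
      have e : (w - 2) * (w + 2) = (w ^ 2 - 2) - 2 := by ring
      rw [e, nu_subr (by rw [h2]; exact h3), h2]
    have hw2 : ν (w ^ 2) = 1 := by
      have e : w ^ 2 = (w ^ 2 - 2) + 2 := by ring
      rw [e, ν.map_add_eq_of_lt_right (by rw [h2]; exact h3), h2]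
    have hw1 : ν w = 1 := by
      rw [map_pow] at hw2
      exact (pow_eq_one_iff_of_nonneg zero_le (by norm_num)).1 hw2
    have h6 : ν (w - 2) ≤ 1 := ν.map_sub_le hw1.le h2.le
    have h7 : ν (w + 2) ≤ 1 := ν.map_add_le hw1.le h2.le
    have h8 : ν (w - 2) = 1 := by
      refine le_antisymm h6 ?_
      rw [← h5, map_mul]
      exact mul_le_of_le_one_right' h7
    rw [map_mul, h8, hd, one_mul]
    exact ⟨1, by rw [mul_one]⟩
  · refine key x hx0 ?_ h
    obtain ⟨n, hn⟩ := exists_nu ν hx0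
    have h3 := hx.even h4.le
    rw [map_mul, hn] at h3
    rw [hn, isSquare_exp]
    rcases lt_trichotomy n 0 with h0 | h0 | h0
    · have hx1 : ν x < 1 := by
        rw [hn, ← exp_zero, exp_lt_exp]
        exact h0
      have h5 : ν (x ^ 2 + 4 * d * x) < ν (2 * d ^ 2) := by
        have e : x ^ 2 + 4 * d * x = x * (x + 4 * d) := by ring
        rw [hdd, e, map_mul]
        refine (mul_le_of_le_one_right' ?_).trans_lt hx1
        exact ν.map_add_le hx1.le (by rw [map_mul, h4, hd, one_mul])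
      rw [ν.map_add_eq_of_lt_right h5, hdd, mul_one, isSquare_exp] at h3
      exact h3
    · rw [h0]
      exact Even.zero
    · have hx1 : 1 < ν x := by
        rw [hn, ← exp_zero, exp_lt_exp]
        exact h0
      have hx2 : ν x < ν (x ^ 2) := by
        rw [pow_two, map_mul]
        exact lt_mul_of_one_lt_left (zero_lt_iff.2 (ν.ne_zero_iff.2 hx0)) hx1
      have h5 : ν (4 * d * x + 2 * d ^ 2) < ν (x ^ 2) := by
        refine lt_of_le_of_lt (ν.map_add_le ?_ ?_) hx2
        · rw [map_mul, map_mul, h4, hd, one_mul, one_mul]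
        · rw [hdd]
          exact hx1.le
      have e : x ^ 2 + 4 * d * x + 2 * d ^ 2 = x ^ 2 + (4 * d * x + 2 * d ^ 2) := by ring
      rw [e, ν.map_add_eq_of_lt_left h5, map_pow, hn, ← exp_nsmul, ← exp_add, isSquare_exp] at h3
      simp only [nsmul_eq_mul, Nat.cast_ofNat] at h3
      exact odd_three h3

/-- the odd places where `d` has odd value -/
theorem locS_bad {z d a : L} (hz : z ^ 2 = -2) (h2 : ν 2 = 1) (hd0 : d ≠ 0)
    (hd : ¬ IsSquare (ν d)) (h : GLocS ν d a) : Sq ν a ∨ Sq ν (-a) ∨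
      ∃ w : L, ν (w ^ 2 - 2) < 1 ∧ ν (w - 2) = 1 ∧ Sq ν (a * ((w - 2) * d)) := by
  have h4 : ν 4 = 1 := by
    rw [show (4 : L) = 2 * 2 by norm_num, map_mul, h2, one_mul]
  have h16 : ν 16 = 1 := by
    rw [show (16 : L) = 4 * 4 by norm_num, map_mul, h4, one_mul]
  have hνd : ν d ≠ 0 := ν.ne_zero_iff.2 hd0
  have hdd : ν (2 * d ^ 2) = ν d ^ 2 := by rw [map_mul, map_pow, h2, one_mul]
  have hwu : ∀ w : L, ν (w ^ 2 - 2) < 1 → ν (w - 2) = 1 := by
    intro w h3
    have h5 : ν ((w - 2) * (w + 2)) = 1 := by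
      have e : (w - 2) * (w + 2) = (w ^ 2 - 2) - 2 := by ring
      rw [e, nu_subr (by rw [h2]; exact h3), h2]
    have hw2 : ν (w ^ 2) = 1 := by
      have e : w ^ 2 = (w ^ 2 - 2) + 2 := by ring
      rw [e, ν.map_add_eq_of_lt_right (by rw [h2]; exact h3), h2]
    have hw1 : ν w = 1 := by
      rw [map_pow] at hw2
      exact (pow_eq_one_iff_of_nonneg zero_le (by norm_num)).1 hw2
    have h6 : ν (w - 2) ≤ 1 := ν.map_sub_le hw1.le h2.le
    have h7 : ν (w + 2) ≤ 1 := ν.map_add_le hw1.le h2.le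
    refine le_antisymm h6 ?_
    rw [← h5, map_mul]
    exact mul_le_of_le_one_right' h7
  rcases h with h | h | ⟨w, hw0, hw, h⟩ | ⟨x, hx0, hx, h⟩
  · exact Or.inl h
  · exact Or.inr (Or.inl h)
  · right; right
    rw [h16] at hw
    have h3 : ν (w ^ 2 - 2) < 1 := by
      have e : w ^ 2 - 2 = 2 * (w ^ 2 / 2 - 1) := by
        field_simp
      rw [e, map_mul, h2, one_mul]
      exact hw
    exact ⟨w, h3, hwu w h3, h⟩
  · have hνx : ν x ≠ 0 := ν.ne_zero_iff.2 hx0
    obtain ⟨g, hg⟩ : ∃ g, g = x ^ 2 + 4 * d * x + 2 * d ^ 2 := ⟨_, rfl⟩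
    rw [← hg] at hx
    have hg0 : g ≠ 0 := fun h0 => hx.ne h4.le (by rw [h0, mul_zero])
    rcases lt_trichotomy (ν x) (ν d) with h0 | h0 | h0
    · -- `x` is small
      right; left
      have h5 : ν (x ^ 2 + 4 * d * x) < ν (2 * d ^ 2) := by
        have e : x ^ 2 + 4 * d * x = x * (x + 4 * d) := by ring
        rw [hdd, e, map_mul, pow_two]
        refine (mul_le_mul_right (ν.map_add_le h0.le (by rw [map_mul, h4, one_mul])) _).trans_lt ?_
        exact mul_lt_mul_of_pos_right h0 (zero_lt_iff.2 hνd)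
      have hgv : ν g = ν d ^ 2 := by rw [hg, ν.map_add_eq_of_lt_right h5, hdd]
      have h1 : Sq ν (x * (2 * d ^ 2)) := by
        refine Sq.congr' h4.le hx ?_
        have e : x * (2 * d ^ 2) / (x * g) - 1 = -((x ^ 2 + 4 * d * x) / g) := by
          rw [mul_div_mul_left _ _ hx0, div_sub_one hg0, ← neg_div]
          congr 1
          rw [hg]
          ring
        rw [e, Valuation.map_neg, map_div₀, hgv, h4, ← hdd]
        exact (div_lt_one₀ (zero_lt_iff.2 (by rw [hdd]; exact pow_ne_zero 2 hνd))).2 h5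
      have h6 : Sq ν (x * 2) := by
        refine Sq.of_mul_sq hd0 ?_
        have e : x * 2 * d ^ 2 = x * (2 * d ^ 2) := by ring
        rwa [e]
      exact Sq.two hz (Sq.trans' h4.le h h6)
    · -- `x = d t`
      right; right
      obtain ⟨t, ht⟩ : ∃ t, t = x / d := ⟨_, rfl⟩
      have hxt : x = d * t := by
        rw [ht]
        field_simp
      have ht1 : ν t = 1 := by rw [ht, map_div₀, h0, div_self hνd]
      have ht0 : t ≠ 0 := by
        rintro rfl
        rw [map_zero] at ht1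
        exact zero_ne_one ht1
      have e : x * g = t * (t ^ 2 + 4 * t + 2) * d * d ^ 2 := by
        rw [hg, hxt]
        ring
      have h3 : ν (t ^ 2 + 4 * t + 2) < 1 := by
        have h5 : ν (t ^ 2 + 4 * t + 2) ≤ 1 := by
          refine ν.map_add_le (ν.map_add_le ?_ ?_) h2.le
          · rw [map_pow, ht1, one_pow]
          · rw [map_mul, h4, ht1, one_mul]
        refine lt_of_le_of_ne h5 fun h6 => hd ?_
        have h7 := (Sq.of_mul_sq hd0 (e ▸ hx : Sq ν (t * (t ^ 2 + 4 * t + 2) * d * d ^ 2))).even h4.le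
        rwa [map_mul, map_mul, ht1, h6, one_mul, one_mul] at h7
      have h5 : ν ((t + 2) ^ 2 - 2) < 1 := by
        have e' : (t + 2) ^ 2 - 2 = t ^ 2 + 4 * t + 2 := by ring
        rwa [e']
      refine ⟨t + 2, h5, hwu _ h5, ?_⟩
      have e' : (t + 2 - 2) * d = x := by rw [hxt]; ring
      rwa [e']
    · -- `x` is large
      left
      have h5 : ν (4 * d * x + 2 * d ^ 2) < ν (x ^ 2) := by
        have e : 4 * d * x + 2 * d ^ 2 = d * (4 * x + 2 * d) := by ring
        rw [e, map_mul, map_pow, pow_two]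
        refine lt_of_le_of_lt (mul_le_mul_right (?_ : ν (4 * x + 2 * d) ≤ ν x) _)
          (mul_lt_mul_of_pos_right h0 (zero_lt_iff.2 hνx))
        refine ν.map_add_le ?_ ?_
        · rw [map_mul, h4, one_mul]
        · rw [map_mul, h2, one_mul]
          exact h0.le
      have hge : g = x ^ 2 + (4 * d * x + 2 * d ^ 2) := by rw [hg]; ring
      have hgv : ν g = ν (x ^ 2) := by rw [hge, ν.map_add_eq_of_lt_left h5]
      have h1 : Sq ν (x ^ 3) := by
        refine Sq.congr' h4.le hx ?_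
        have e : x ^ 3 / (x * g) - 1 = -((4 * d * x + 2 * d ^ 2) / g) := by
          rw [show x ^ 3 = x * x ^ 2 by ring, mul_div_mul_left _ _ hx0, div_sub_one hg0, ← neg_div]
          congr 1
          rw [hge]
          ring
        rw [e, Valuation.map_neg, map_div₀, hgv, h4]
        exact (div_lt_one₀ (zero_lt_iff.2 (by rw [map_pow]; exact pow_ne_zero 2 hνx))).2 h5
      have h6 : Sq ν x := by
        refine Sq.of_mul_sq hx0 ?_
        have e : x * x ^ 2 = x ^ 3 := by ring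
        rwa [e]
      exact h.cancel h4.le h6

end Pool.Agent.Lib.MP_1a91b9_ntW.C
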