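import Pool.Agent.Lib.MP_1a91b9_ntW.C.LamW
import Pool.Agent.Lib.MP_1a91b9_ntW.R.Inst
import Pool.Agent.Lib.MP_1a91b9_ntW.R.Sy8
import Pool.Agent.Lib.MP_1a91b9_ntV.C.Symb

/-!
# MP_1a91b9_nt, `ℚ(√-2)`, part C: the rows of the primes which divide `d`
-/

set_option autoImplicit false
set_option linter.unusedSectionVars false
set_option linter.unusedVariables false

namespace Pool.Agent.Lib.MP_1a91b9_ntW.C

open NumberField Finset WithZero IsDedekindDomain
open Pool.Agent.Lib.MP_1a91b9_ntW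
open Pool.Agent.Lib.MP_1a91b9_ntH.C (Sq exists_nu isSquare_exp nu_one)
open Pool.Agent.Lib.MP_1a91b9_ntV.C (pv pv_self pv_one pv_lt pv_le_pow coe_ne ls gpr gpr_erase
  not_dvd_gpr ls_gpr sq_iff_ls ls_mul)

noncomputable section

theorem ls_cc (q : Pg) (x : 𝓞 K8) : ls q.1 x = cc q x := by
  classical
  rw [cc_def]
  unfold ls
  by_cases h : ∃ y : 𝓞 K8, q.1 ∣ y ^ 2 - x
  · rw [if_pos h]
  · rw [if_neg h]

/-- `2` is a unit -/
theorem not_dvd_two (q : Pg) : ¬ q.1 ∣ (2 : 𝓞 K8) := by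
  intro h
  rw [two_eq, dvd_neg] at h
  exact not_dvd_lam q (q.2.1.dvd_of_dvd_pow h)

/-- the norm modulo `16` -/
theorem Nz_eight (q : Pg) (h : aa q.1 = 0) :
    ∃ e : ℕ, Nz q.1 = 8 * e + 1 ∧ (e : ZMod 2) = rr q.1 + ll q.1 := by
  have h1 := Nz_cp q.1
  have h2 := (Pr_iff.1 q.2.2).1
  have h3 : (cp q.1).2 % 2 = 0 := by
    rw [aa_cp, ZMod.intCast_zmod_eq_zero_iff_dvd] at h
    push_cast at h
    omega
  rw [rr_cp, ll_cp q.2.2]
  obtain ⟨x, hx⟩ : ∃ x, x = (cp q.1).1 := ⟨_, rfl⟩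
  obtain ⟨y, hy⟩ : ∃ y, y = (cp q.1).2 := ⟨_, rfl⟩
  rw [← hx, ← hy] at h1 ⊢
  rw [← hx] at h2
  rw [← hy] at h3
  obtain ⟨a, r, hr0, hr8, hxr⟩ : ∃ a r : ℤ, 0 ≤ r ∧ r < 8 ∧ x = 8 * a + r :=
    ⟨x / 8, x % 8, by omega, by omega, by omega⟩
  obtain ⟨b, s, hs0, hs4, hys⟩ : ∃ b s : ℤ, 0 ≤ s ∧ s < 4 ∧ y = 4 * b + s :=
    ⟨y / 4, y % 4, by omega, by omega, by omega⟩
  obtain ⟨X, hX⟩ : ∃ X : ℤ, X = 4 * a ^ 2 + a * r + 2 * b ^ 2 + b * s := ⟨_, rfl⟩
  have h4 : (Nz q.1 : ℤ) = 16 * X + (r ^ 2 + 2 * s ^ 2) := by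
    rw [h1, hX, hxr, hys]
    ring
  have hc : ∀ e : ℕ, (e : ZMod 2) = if e % 2 = 1 then 1 else 0 := by
    intro e
    rw [← ZMod.natCast_mod]
    rcases Nat.mod_two_eq_zero_or_one e with h5 | h5 <;> rw [h5] <;> rfl
  refine ⟨Nz q.1 / 8, ?_, ?_⟩
  · interval_cases r <;> interval_cases s <;> omega
  · rw [hc]
    have f : ¬ (y % 2 = 1 ∧ x % 4 = 1) := fun h => by omega
    rw [if_neg f, zero_add]
    clear hX h1
    interval_cases r <;> interval_cases s <;> first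
      | (exfalso; omega)
      | (rw [if_pos (by omega), if_pos (by omega), if_neg (by omega)]; rfl)
      | (rw [if_pos (by omega), if_neg (by omega), if_pos (by omega)]; rfl)
      | (rw [if_neg (by omega), if_neg (by omega), if_neg (by omega)]; rfl)
      | (rw [if_neg (by omega), if_pos (by omega), if_pos (by omega)]; decide)

/-- the symbol of `√2 - 2` -/
theorem cc_root (q : Pg) (h : aa q.1 = 0) {c : 𝓞 K8} (hc : q.1 ∣ c ^ 2 - 2) :
    ¬ q.1 ∣ c - 2 ∧ cc q (c - 2) = rr q.1 + ll q.1 := by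
  obtain ⟨F, _, _, _, f, hf, hk, h2, hcard, hqc⟩ := residue8 q
  obtain ⟨e, he, he2⟩ := Nz_eight q h
  have h20 : (2 : F) ≠ 0 := Ring.two_ne_zero h2
  obtain ⟨C, hC⟩ : ∃ C, C = f c := ⟨_, rfl⟩
  obtain ⟨l, hl⟩ : ∃ l, l = f lam := ⟨_, rfl⟩
  have hCC : C ^ 2 = 2 := by
    have h3 := (hk _).2 hc
    rw [map_sub, map_pow, map_ofNat, ← hC, sub_eq_zero] at h3
    exact h3
  have hll : l ^ 2 = -2 := by
    rw [hl, ← map_pow, lam_sq, map_neg, map_ofNat]
  have hC2 : C - 2 ≠ 0 := by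
    intro h3
    have h4 : C = 2 := by linear_combination h3
    rw [h4] at hCC
    apply h20
    linear_combination hCC
  have hn : ¬ q.1 ∣ c - 2 := by
    intro h3
    rw [← hk, map_sub, map_ofNat, ← hC] at h3
    exact hC2 h3
  refine ⟨hn, ?_⟩
  obtain ⟨ζ, hζ⟩ : ∃ ζ, ζ = (C + l) / 2 := ⟨_, rfl⟩
  have hζ2 : ζ ^ 2 = C * ζ - 1 := by
    rw [hζ]
    field_simp
    linear_combination hll - hCC
  have hζ4 : ζ ^ 4 = -1 := by
    linear_combination (ζ ^ 2 + C * ζ + 1) * hζ2 + ζ ^ 2 * hCC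
  have hζ0 : ζ ≠ 0 := by
    intro h0
    rw [h0] at hζ4
    norm_num at hζ4
  have hsq : (C - 2) * ζ = (ζ - 1) ^ 2 := by linear_combination -hζ2
  have hζ1 : ζ - 1 ≠ 0 := by
    intro h0
    rw [h0, zero_pow two_ne_zero] at hsq
    exact (mul_ne_zero hC2 hζ0) hsq
  have h5 : quadraticChar F (C - 2) * quadraticChar F ζ = 1 := by
    rw [← map_mul, hsq, map_pow]
    exact quadraticChar_sq_one hζ1
  have h6 : (quadraticChar F ζ : F) = (-1) ^ e := by
    rw [quadraticChar_eq_pow_of_char_ne_two' h2, hcard, he,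
      show (8 * e + 1) / 2 = 4 * e by omega, pow_mul, hζ4]
  have hm1 : (-1 : F) ≠ 1 := Ring.neg_one_ne_one_of_char_ne_two h2
  have h7 : quadraticChar F ζ = (-1) ^ e := by
    rcases quadraticChar_dichotomy hζ0 with h8 | h8 <;>
      rcases neg_one_pow_eq_or ℤ e with h9 | h9 <;> rw [h8, h9]
    · exfalso
      rw [h8] at h6
      have h10 := congrArg (fun z : ℤ => (z : F)) h9
      push_cast at h10 h6
      rw [h10] at h6
      exact hm1 h6.symm
    · exfalso
      rw [h8] at h6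
      have h10 := congrArg (fun z : ℤ => (z : F)) h9
      push_cast at h10 h6
      rw [h10] at h6
      exact hm1 h6
  have h8 : qc q (c - 2) = (-1) ^ e := by
    rw [hqc, map_sub, map_ofNat, ← hC]
    rw [h7] at h5
    rcases neg_one_pow_eq_or ℤ e with h9 | h9
    · rw [h9, mul_one] at h5
      rw [h9, h5]
    · rw [h9] at h5
      rw [h9]
      linear_combination -h5
  have h9 : cc q (c - 2) = 0 ↔ qc q (c - 2) = 1 := by
    classical
    rw [qc_of_not hn, Pool.Agent.Lib.MP_1a91b9_ntH.R.qs_eq_one_iff, cc_def]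
    constructor
    · intro h10
      by_contra h11
      rw [if_neg h11] at h10
      exact one_ne_zero h10
    · intro h10
      exact if_pos h10
  rw [h8] at h9
  rw [← he2]
  have h01 : ∀ v : ZMod 2, v = 0 ∨ v = 1 := by decide
  rcases Nat.even_or_odd e with h10 | h10
  · rw [h10.neg_one_pow] at h9
    rw [h9.2 rfl]
    exact ((ZMod.natCast_eq_zero_iff_even).2 h10).symm
  · rw [h10.neg_one_pow] at h9
    rw [(ZMod.natCast_eq_one_iff_odd).2 h10]
    rcases h01 (cc q (c - 2)) with h11 | h11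
    · exact absurd (h9.1 h11) (by norm_num)
    · exact h11

/-! ### the place `q` -/

/-- the valuation of `q` -/
def nuq (q : Pg) : Valuation K8 ℤᵐ⁰ := (pv q.1 q.2.1).valuation K8

theorem nuq_two (q : Pg) : nuq q 2 = 1 := by
  have h := pv_one (N := K8) q.2.1 (not_dvd_two q)
  have e : ((2 : 𝓞 K8) : K8) = 2 := map_ofNat (algebraMap (𝓞 K8) K8) 2
  rw [e] at h
  exact h

theorem nuq_four (q : Pg) : nuq q 4 = 1 := by
  rw [show (4 : K8) = 2 * 2 by norm_num, map_mul, nuq_two, mul_one]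

theorem exp1_lt : (exp (-1) : ℤᵐ⁰) < 1 := by
  rw [← exp_zero, exp_lt_exp]
  norm_num

theorem not_sq_exp1 : ¬ IsSquare (exp (-1) : ℤᵐ⁰) := by
  rw [isSquare_exp]
  decide

/-- the local condition at a prime which divides `d` exactly once -/
theorem at_q (q : Pg) {d a : K8} (hd : nuq q d = exp (-1)) (h : GLocS (nuq q) d a) :
    Sq (nuq q) a ∨ Sq (nuq q) (-a) ∨ ∃ c : 𝓞 K8, q.1 ∣ c ^ 2 - 2 ∧
      Sq (nuq q) (a * (((c - 2 : 𝓞 K8) : K8) * d)) := by
  have hd0 : d ≠ 0 := by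
    rintro rfl
    rw [map_zero] at hd
    exact exp_ne_zero hd.symm
  rcases locS_bad z8_sq (nuq_two q) hd0 (by rw [hd]; exact not_sq_exp1) h with
    h | h | ⟨w, hw, hw2, h⟩
  · exact Or.inl h
  · exact Or.inr (Or.inl h)
  · right; right
    have hw1 : nuq q w ≤ 1 := by
      have e : w = (w - 2) + 2 := by ring
      rw [e]
      exact (nuq q).map_add_le hw2.le (nuq_two q).le
    obtain ⟨c, hc⟩ := HeightOneSpectrum.exists_valuation_sub_lt_of_integer (K := K8)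
      (pv q.1 q.2.1) (x := w) hw1 1
    rw [Units.val_one] at hc
    have hc' : nuq q ((c : K8) - w) < 1 := hc
    have hc1 : nuq q (c : K8) ≤ 1 := (pv q.1 q.2.1).valuation_le_one c
    refine ⟨c, ?_, ?_⟩
    · rw [← pv_lt (N := K8) q.2.1]
      have e : ((c ^ 2 - 2 : 𝓞 K8) : K8) = (w ^ 2 - 2) + ((c : K8) - w) * ((c : K8) + w) := by
        push_cast
        rw [coe_two8]
        ring
      rw [e]
      refine (nuq q).map_add_lt hw ?_
      rw [map_mul]
      exact (mul_le_of_le_one_right' ((nuq q).map_add_le hc1 hw1)).trans_lt hc'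
    · have hwd : (w - 2) * d ≠ 0 := by
        refine mul_ne_zero ?_ hd0
        rw [← (nuq q).ne_zero_iff, hw2]
        exact one_ne_zero
      refine Sq.near (nuq_four q).le h ?_
      have e : ((c - 2 : 𝓞 K8) : K8) * d / ((w - 2) * d) - 1 = ((c : K8) - w) / (w - 2) := by
        have h1 : w - 2 ≠ 0 := left_ne_zero_of_mul hwd
        have e1 : ((c - 2 : 𝓞 K8) : K8) = (c : K8) - 2 := by
          push_cast
          rw [coe_two8]
        rw [e1]
        field_simp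
        ring
      rw [e, map_div₀, hw2, div_one, nuq_four]
      exact hc'

/-! ### the classes -/

/-- the primes: `lam` and the normalised primes -/
def gq : Option Pg → 𝓞 K8
  | none => lam
  | some q => q.1

theorem gq_prime (i : Option Pg) : Prime (gq i) := by
  rcases i with _ | q
  · exact lam_prime
  · exact q.2.1

theorem gq_ne (i j : Option Pg) (h : i ≠ j) : ¬ gq i ∣ gq j := by
  rcases i with _ | q <;> rcases j with _ | p
  · exact absurd rfl h
  · exact Pg_not_lam p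
  · exact not_dvd_lam q
  · exact Pg_not_dvd fun h1 => h (by rw [h1])

theorem erase_ins (S : Finset Pg) (q : Pg) :
    (insertNone S).erase (some q) = insertNone (S.erase q) := by
  ext i
  rcases i with _ | p
  · simp
  · simp

/-- the exponent of the symbol of the part prime to `q` -/
theorem ls_part (q : Pg) (S : Finset Pg) (V : Option Pg → ZMod 2) :
    cc q (gpr gq ((insertNone S).erase (some q)) V) =
      ∑ p ∈ S.erase q, V (some p) * sy q p + V none * ll q.1 := by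
  rw [← ls_cc, ls_gpr q.2.1 gq _ V fun i hi => gq_ne (some q) i (ne_of_mem_erase hi).symm,
    erase_ins, sum_insertNone, add_comm]
  congr 1
  · refine sum_congr rfl fun p _ => ?_
    rw [ls_cc, sy_eq]
    rfl
  · rw [ls_cc]
    show V none * cc q lam = _
    rw [cc_lam]

theorem cc_one (q : Pg) : cc q 1 = 0 := by
  have h := cc_sq q 1
  rwa [one_pow] at h

theorem not_dvd_sign (q : Pg) (n : ZMod 2) : ¬ q.1 ∣ (-1 : 𝓞 K8) ^ n.val := fun h =>
  not_dvd_neg_one q (q.2.1.dvd_of_dvd_pow h)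

theorem cc_sign (q : Pg) (n : ZMod 2) : cc q ((-1) ^ n.val) = n * aa q.1 := by
  have h01 : ∀ v : ZMod 2, v = 0 ∨ v = 1 := by decide
  have h1v : ((1 : ZMod 2)).val = 1 := rfl
  rcases h01 n with rfl | rfl
  · rw [ZMod.val_zero, pow_zero, cc_one, zero_mul]
  · rw [h1v, pow_one, cc_neg_one, one_mul]

theorem cc_lamp (q : Pg) (j : ZMod 2) : cc q (lam ^ (1 - j.val)) = (1 + j) * ll q.1 := by
  have h01 : ∀ v : ZMod 2, v = 0 ∨ v = 1 := by decide
  have h1v : ((1 : ZMod 2)).val = 1 := rfl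
  rcases h01 j with rfl | rfl
  · rw [ZMod.val_zero, Nat.sub_zero, pow_one, cc_lam, add_zero, one_mul]
  · rw [h1v, Nat.sub_self, pow_zero, cc_one, CharTwo.add_self_eq_zero, zero_mul]

theorem not_dvd_DD {q : Pg} {S : Finset Pg} (h : q ∉ S) : ¬ q.1 ∣ DD S := by
  intro hd
  obtain ⟨p, hp, h2⟩ := q.2.1.exists_mem_finset_dvd hd
  exact h (by rw [Pg_eq h2]; exact hp)

theorem cc_DD {q : Pg} {S : Finset Pg} (h : q ∉ S) : cc q (DD S) = ∑ p ∈ S, sy q p := by
  rw [← ls_cc, DD, Pool.Agent.Lib.MP_1a91b9_ntV.C.ls_prod q.2.1 S _ fun p hp hd =>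
    h (by rw [Pg_eq hd]; exact hp)]
  exact sum_congr rfl fun p _ => by rw [ls_cc, sy_eq]

/-- the part of `d` prime to `q` -/
def dq (k j : ZMod 2) (S : Finset Pg) (q : Pg) : 𝓞 K8 :=
  (-1) ^ k.val * lam ^ (1 - j.val) * DD (S.erase q)

theorem dW_eq (k j : ZMod 2) {S : Finset Pg} {q : Pg} (hq : q ∈ S) :
    dW k j S = q.1 * dq k j S q := by
  rw [dW, dq]
  have e : DD S = q.1 * DD (S.erase q) := by
    rw [DD, DD, mul_prod_erase S (fun p : Pg => p.1) hq]
  rw [e]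
  ring

theorem not_dvd_dq (k j : ZMod 2) (S : Finset Pg) (q : Pg) : ¬ q.1 ∣ dq k j S q := by
  rw [dq]
  refine q.2.1.not_dvd_mul (q.2.1.not_dvd_mul (not_dvd_sign q k) fun h => ?_)
    (not_dvd_DD (notMem_erase q S))
  exact not_dvd_lam q (q.2.1.dvd_of_dvd_pow h)

theorem cc_dq (k j : ZMod 2) (S : Finset Pg) (q : Pg) :
    cc q (dq k j S q) = k * aa q.1 + (1 + j) * ll q.1 + ∑ p ∈ S.erase q, sy q p := by
  have h1 : ¬ q.1 ∣ lam ^ (1 - j.val) := fun h => not_dvd_lam q (q.2.1.dvd_of_dvd_pow h)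
  rw [dq, cc_mul q (q.2.1.not_dvd_mul (not_dvd_sign q k) h1) (not_dvd_DD (notMem_erase q S)),
    cc_mul q (not_dvd_sign q k) h1, cc_sign, cc_lamp, cc_DD (notMem_erase q S)]

/-- the parity of the exponent of `q` -/
theorem par_q (q : Pg) {m : K8} (hm : m ≠ 0) {v : ZMod 2} {g : 𝓞 K8} (hg : ¬ q.1 ∣ g)
    (h : Sq (nuq q) (m ^ 2 * ((q.1 ^ v.val * g : 𝓞 K8) : K8))) : v = 0 ∧ cc q g = 0 := by
  have hs := h.even (nuq_four q).le
  obtain ⟨k, hk⟩ := exists_nu (nuq q) hm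
  have e : nuq q ((q.1 ^ v.val * g : 𝓞 K8) : K8) = exp (-(v.val : ℤ)) := by
    have e1 : ((q.1 ^ v.val * g : 𝓞 K8) : K8) = (q.1 : K8) ^ v.val * (g : K8) := by
      push_cast
      rfl
    have e2 : nuq q (q.1 : K8) = exp (-1) := pv_self q.1 q.2.1
    have e3 : nuq q (g : K8) = 1 := pv_one q.2.1 hg
    rw [e1, map_mul, map_pow, e2, e3, mul_one, ← exp_nsmul]
    congr 1
    simp
  rw [map_mul, map_pow, hk, e, ← exp_nsmul, ← exp_add, isSquare_exp] at hs
  simp only [nsmul_eq_mul, Nat.cast_ofNat] at hs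
  have h2 : v.val < 2 := ZMod.val_lt v
  obtain ⟨t, ht⟩ := hs
  have h3 : v.val = 0 := by omega
  have h4 : v = 0 := (ZMod.val_eq_zero v).1 h3
  refine ⟨h4, ?_⟩
  rw [h4, ZMod.val_zero, pow_zero, one_mul] at h
  rw [← ls_cc, ← sq_iff_ls (N := K8) q.2.1 (not_dvd_two q) hg]
  refine Sq.of_mul_sq hm ?_
  rwa [mul_comm]

/-- **The row of a prime which divides `d`.** -/
theorem rowS {k j n : ZMod 2} {S : Finset Pg} {q : Pg} (hq : q ∈ S) (ha : aa q.1 = 0)
    (V : Option Pg → ZMod 2) {m : K8} (hm : m ≠ 0)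
    (h : GLocS (nuq q) (dW k j S : K8)
      (m ^ 2 * (((-1) ^ n.val * gpr gq (insertNone S) V : 𝓞 K8) : K8))) :
    V (some q) * (rr q.1 + j * ll q.1 + ∑ p ∈ S.erase q, sy q p) +
      ∑ p ∈ S.erase q, V (some p) * sy q p + V none * ll q.1 = 0 := by
  obtain ⟨G, hG⟩ : ∃ G, G = gpr gq ((insertNone S).erase (some q)) V := ⟨_, rfl⟩
  have hmem : some q ∈ insertNone S := some_mem_insertNone.2 hq
  have hGn : ¬ q.1 ∣ G := by
    rw [hG]
    exact not_dvd_gpr q.2.1 (fun i hi => gq_ne (some q) i (ne_of_mem_erase hi).symm) V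
  have hlG := ls_part q S V
  rw [← hG] at hlG
  have hge : gpr gq (insertNone S) V = q.1 ^ (V (some q)).val * G := by
    rw [gpr_erase gq hmem, ← hG]
    rfl
  have hd : nuq q (dW k j S : K8) = exp (-1) := by
    rw [dW_eq k j hq]
    have e1 : ((q.1 * dq k j S q : 𝓞 K8) : K8) = (q.1 : K8) * (dq k j S q : K8) := by
      push_cast
      rfl
    have e2 : nuq q (q.1 : K8) = exp (-1) := pv_self q.1 q.2.1
    have e3 : nuq q (dq k j S q : K8) = 1 := pv_one q.2.1 (not_dvd_dq k j S q)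
    rw [e1, map_mul, e2, e3, mul_one]
  rw [hge] at h
  have hn := not_dvd_sign q n
  have hnG := q.2.1.not_dvd_mul hn hGn
  rcases at_q q hd h with h1 | h1 | ⟨c, hc, h1⟩
  · have e : ((-1) ^ n.val * (q.1 ^ (V (some q)).val * G) : 𝓞 K8) =
        q.1 ^ (V (some q)).val * ((-1) ^ n.val * G) := by ring
    rw [e] at h1
    obtain ⟨h2, h3⟩ := par_q q hm hnG h1
    rw [cc_mul q hn hGn, cc_sign, ha, mul_zero, zero_add, hlG] at h3
    rw [h2, zero_mul, zero_add]
    exact h3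
  · have hnn : ¬ q.1 ∣ -((-1) ^ n.val * G) := fun h2 => hnG ((dvd_neg).1 h2)
    have e : -(m ^ 2 * (((-1) ^ n.val * (q.1 ^ (V (some q)).val * G) : 𝓞 K8) : K8)) =
        m ^ 2 * ((q.1 ^ (V (some q)).val * (-((-1) ^ n.val * G)) : 𝓞 K8) : K8) := by
      push_cast
      ring
    rw [e] at h1
    obtain ⟨h2, h3⟩ := par_q q hm hnn h1
    have e2 : -((-1) ^ n.val * G) = -1 * ((-1) ^ n.val * G) := by ring
    rw [e2, cc_mul q (not_dvd_neg_one q) hnG, cc_neg_one, ha, zero_add, cc_mul q hn hGn, cc_sign,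
      ha, mul_zero, zero_add, hlG] at h3
    rw [h2, zero_mul, zero_add]
    exact h3
  · obtain ⟨hc1, hc2⟩ := cc_root q ha hc
    have hdq := not_dvd_dq k j S q
    have hx1 := q.2.1.not_dvd_mul hnG (q.2.1.not_dvd_mul hc1 hdq)
    have h01 : ∀ v : ZMod 2, v = 0 ∨ v = 1 := by decide
    have h1v : ((1 : ZMod 2)).val = 1 := rfl
    have hq0 : ((q.1 : 𝓞 K8) : K8) ≠ 0 := coe_ne q.2.1.ne_zero
    have hV : V (some q) = 1 := by
      rcases h01 (V (some q)) with h2 | h2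
      · exfalso
        rw [h2, ZMod.val_zero, pow_zero, one_mul] at h1
        have e : m ^ 2 * (((-1) ^ n.val * G : 𝓞 K8) : K8) *
            (((c - 2 : 𝓞 K8) : K8) * (dW k j S : K8)) =
            m ^ 2 * ((q.1 ^ ((1 : ZMod 2)).val * (((-1) ^ n.val * G) *
              ((c - 2) * dq k j S q)) : 𝓞 K8) : K8) := by
          rw [dW_eq k j hq, h1v]
          push_cast
          ring
        rw [e] at h1
        exact one_ne_zero (par_q q hm hx1 h1).1
      · exact h2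
    rw [hV, h1v, pow_one] at h1
    have e : m ^ 2 * (((-1) ^ n.val * (q.1 * G) : 𝓞 K8) : K8) *
        (((c - 2 : 𝓞 K8) : K8) * (dW k j S : K8)) =
        (m * (q.1 : K8)) ^ 2 * ((q.1 ^ ((0 : ZMod 2)).val * (((-1) ^ n.val * G) *
          ((c - 2) * dq k j S q)) : 𝓞 K8) : K8) := by
      rw [dW_eq k j hq, ZMod.val_zero]
      push_cast
      ring
    rw [e] at h1
    have h3 := (par_q q (mul_ne_zero hm hq0) hx1 h1).2
    rw [cc_mul q hnG (q.2.1.not_dvd_mul hc1 hdq), cc_mul q hn hGn, cc_sign, ha, mul_zero, zero_add,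
      hlG, cc_mul q hc1 hdq, hc2, cc_dq, ha, mul_zero, zero_add] at h3
    rw [hV, one_mul]
    have key : ∀ s v l r j t : ZMod 2, s + v * l + (r + l + ((1 + j) * l + t)) = 0 →
        r + j * l + t + s + v * l = 0 := by decide
    exact key _ _ _ _ _ _ h3

/-- **The row of a prime with `a = 1`.** -/
theorem rowS1 {k j n : ZMod 2} {S : Finset Pg} {q : Pg} (hq : q ∈ S) (ha : aa q.1 = 1)
    (V : Option Pg → ZMod 2) {m : K8} (hm : m ≠ 0)
    (h : GLocS (nuq q) (dW k j S : K8)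
      (m ^ 2 * (((-1) ^ n.val * gpr gq (insertNone S) V : 𝓞 K8) : K8))) :
    V (some q) = 0 := by
  obtain ⟨G, hG⟩ : ∃ G, G = gpr gq ((insertNone S).erase (some q)) V := ⟨_, rfl⟩
  have hmem : some q ∈ insertNone S := some_mem_insertNone.2 hq
  have hGn : ¬ q.1 ∣ G := by
    rw [hG]
    exact not_dvd_gpr q.2.1 (fun i hi => gq_ne (some q) i (ne_of_mem_erase hi).symm) V
  have hge : gpr gq (insertNone S) V = q.1 ^ (V (some q)).val * G := by
    rw [gpr_erase gq hmem, ← hG]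
    rfl
  have hd : nuq q (dW k j S : K8) = exp (-1) := by
    rw [dW_eq k j hq]
    have e1 : ((q.1 * dq k j S q : 𝓞 K8) : K8) = (q.1 : K8) * (dq k j S q : K8) := by
      push_cast
      rfl
    have e2 : nuq q (q.1 : K8) = exp (-1) := pv_self q.1 q.2.1
    have e3 : nuq q (dq k j S q : K8) = 1 := pv_one q.2.1 (not_dvd_dq k j S q)
    rw [e1, map_mul, e2, e3, mul_one]
  rw [hge] at h
  have hn := not_dvd_sign q n
  have hnG := q.2.1.not_dvd_mul hn hGn
  rcases at_q q hd h with h1 | h1 | ⟨c, hc, h1⟩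
  · have e : ((-1) ^ n.val * (q.1 ^ (V (some q)).val * G) : 𝓞 K8) =
        q.1 ^ (V (some q)).val * ((-1) ^ n.val * G) := by ring
    rw [e] at h1
    exact (par_q q hm hnG h1).1
  · have hnn : ¬ q.1 ∣ -((-1) ^ n.val * G) := fun h2 => hnG ((dvd_neg).1 h2)
    have e : -(m ^ 2 * (((-1) ^ n.val * (q.1 ^ (V (some q)).val * G) : 𝓞 K8) : K8)) =
        m ^ 2 * ((q.1 ^ (V (some q)).val * (-((-1) ^ n.val * G)) : 𝓞 K8) : K8) := by
      push_cast
      ring
    rw [e] at h1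
    exact (par_q q hm hnn h1).1
  · exfalso
    have h2 := cc_two q
    have h3 : cc q 2 = 0 := by
      classical
      rw [cc_def]
      exact if_pos ⟨c, hc⟩
    rw [ha, h3] at h2
    exact zero_ne_one h2

end

end Pool.Agent.Lib.MP_1a91b9_ntW.C
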