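import Pool.Agent.Lib.MP_1a91b9_ntW.C.RowW
import Pool.Agent.Lib.MP_1a91b9_ntW.C.Gal

/-!
# MP_1a91b9_nt, `ℚ(√-2)`, part C: the Selmer theorem

If `GW k j S` is not zero, then the Selmer group of `√-2` of the curve
`y² = x³ + 4 d x² + 2 d² x`, `d = dW k j S`, is generated by the class of the point `(0, 0)`.
-/

set_option autoImplicit false
set_option linter.unusedSectionVars false
set_option linter.unusedVariables false

namespace Pool.Agent.Lib.MP_1a91b9_ntW.C

open NumberField Finset WithZero IsDedekindDomain Matrix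
open Pool.Agent.Lib.MP_1a91b9_ntW
open Pool.Agent.Lib.MP_1a91b9_ntE (MM BB)
open Pool.Agent.Lib.MP_1a91b9_ntH.C (Sq exists_nu isSquare_exp nu_one)
open Pool.Agent.Lib.MP_1a91b9_ntV.C (pv pv_self pv_one pv_lt pv_le_pow coe_ne ls gpr gpr_erase
  not_dvd_gpr ls_gpr sq_iff_ls ls_mul decomp)

noncomputable section

/-! ### the matrices -/

theorem MM_row (s : Pg → Pg → ZMod 2) (x : Pg → ZMod 2) (S : Finset Pg) (V : Pg → ZMod 2) (i : S) :
    ∑ p : S, MM s x S i p * V p =
      (x i + ∑ p ∈ S.erase i, s i p) * V i + ∑ p ∈ S.erase i, s i p * V p := by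
  classical
  have h1 : ∑ p : S, MM s x S i p * V p =
      ∑ p : S, (fun p : Pg => (if (i : Pg) = p then x i + ∑ k ∈ S.erase (i : Pg), s i k
        else s i p) * V p) p := by
    refine sum_congr rfl fun p _ => ?_
    simp only [MM]
    by_cases h : i = p
    · rw [if_pos h, if_pos (congrArg Subtype.val h)]
    · rw [if_neg h, if_neg fun h2 => h (Subtype.ext h2)]
  rw [h1, sum_coe_sort S (fun p : Pg => (if (i : Pg) = p then x i + ∑ k ∈ S.erase (i : Pg), s i k
        else s i p) * V p), ← add_sum_erase S _ i.2, if_pos rfl]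
  congr 1
  refine sum_congr rfl fun p hp => ?_
  rw [if_neg (ne_of_mem_erase hp).symm]

theorem MM_ker {s : Pg → Pg → ZMod 2} {x : Pg → ZMod 2} {S : Finset Pg} (h : (MM s x S).det ≠ 0)
    {V : Pg → ZMod 2} (hV : ∀ i ∈ S, (x i + ∑ p ∈ S.erase i, s i p) * V i +
      ∑ p ∈ S.erase i, s i p * V p = 0) : ∀ i ∈ S, V i = 0 := by
  by_contra hc
  push Not at hc
  obtain ⟨i, hi, hVi⟩ := hc
  apply h
  rw [← exists_mulVec_eq_zero_iff]
  refine ⟨fun p => V p, fun h0 => hVi (congrFun h0 ⟨i, hi⟩), ?_⟩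
  funext q
  have h1 := MM_row s x S V q
  rw [hV q q.2] at h1
  exact h1

theorem BB_ker {s : Pg → Pg → ZMod 2} {x a be : Pg → ZMod 2} {z : ZMod 2} {S : Finset Pg}
    (h : (BB s x a be z S).det ≠ 0) {V : Pg → ZMod 2} {v : ZMod 2}
    (hV : ∀ i ∈ S, (x i + ∑ p ∈ S.erase i, s i p) * V i +
      ∑ p ∈ S.erase i, s i p * V p + a i * v = 0)
    (hv : ∑ p ∈ S, be p * V p + z * v = 0) : (∀ i ∈ S, V i = 0) ∧ v = 0 := by
  by_contra hc
  apply h
  rw [← exists_mulVec_eq_zero_iff]
  refine ⟨fun p => match p with | none => v | some p => V p, fun h0 => hc ⟨fun i hi =>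
    congrFun h0 (some ⟨i, hi⟩), congrFun h0 none⟩, ?_⟩
  funext q
  rcases q with _ | q
  · show ∑ p : Option S, BB s x a be z S none p * _ = 0
    rw [Fintype.sum_option]
    show z * v + ∑ p : S, be p * V p = 0
    rw [sum_coe_sort S (fun p : Pg => be p * V p), add_comm]
    exact hv
  · show ∑ p : Option S, BB s x a be z S (some q) p * _ = 0
    rw [Fintype.sum_option]
    show a q * v + ∑ p : S, MM s x S q p * V p = 0
    rw [MM_row s x S V q, add_comm]
    exact hV q q.2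

/-! ### the Selmer theorem -/

theorem not_dvd_dW {k j : ZMod 2} {S : Finset Pg} {π : 𝓞 K8} (hπ : Prime π)
    (h : ∀ i ∈ insertNone S, ¬ π ∣ gq i) : ¬ π ∣ dW k j S := by
  have hl : ¬ π ∣ lam := h none (by simp)
  rw [dW]
  refine hπ.not_dvd_mul (hπ.not_dvd_mul (fun h1 => ?_) fun h1 => hl (hπ.dvd_of_dvd_pow h1))
    fun h1 => ?_
  · exact hπ.not_isUnit (isUnit_of_dvd_unit (hπ.dvd_of_dvd_pow h1) isUnit_one.neg)
  · obtain ⟨p, hp, h2⟩ := hπ.exists_mem_finset_dvd h1
    exact h (some p) (some_mem_insertNone.2 hp) h2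

theorem selW {k j : ZMod 2} {S : Finset Pg} (hG : GW k j S ≠ 0) :
    SelClS ((dW k j S : 𝓞 K8) : K8) := by
  intro a ha hloc
  have h01 : ∀ v : ZMod 2, v = 0 ∨ v = 1 := by decide
  have h1v : ((1 : ZMod 2)).val = 1 := rfl
  -- the class of `a`
  obtain ⟨u, V, m, hu, hm, ham⟩ := decomp gq gq_prime gq_ne (insertNone S) a ha (by
    intro π hπ hn
    have hl : ¬ π ∣ lam := hn none (by simp)
    have h2 : ¬ π ∣ (2 : 𝓞 K8) := by
      rw [two_eq, dvd_neg]
      exact fun h => hl (hπ.dvd_of_dvd_pow h)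
    have e : ((2 : 𝓞 K8) : K8) = 2 := map_ofNat (algebraMap (𝓞 K8) K8) 2
    have h3 := pv_one (N := K8) hπ h2
    rw [e] at h3
    exact locS_even h3 (pv_one hπ (not_dvd_dW hπ hn)) (hloc (pv π hπ)))
  obtain ⟨n, rfl⟩ : ∃ n : ZMod 2, u = (-1) ^ n.val := by
    rcases isUnit_iff.1 hu with h | h
    · exact ⟨0, by rw [h, ZMod.val_zero, pow_zero]⟩
    · exact ⟨1, by rw [h, h1v, pow_one]⟩
  have hq : ∀ q : Pg, GLocS (nuq q) (dW k j S : K8)
      (m ^ 2 * (((-1) ^ n.val * gpr gq (insertNone S) V : 𝓞 K8) : K8)) := by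
    intro q
    rw [← ham]
    exact hloc (pv q.1 q.2.1)
  have hr0 : ∀ q ∈ S, aa q.1 = 0 →
      V (some q) * (rr q.1 + j * ll q.1 + ∑ p ∈ S.erase q, sy q p) +
        ∑ p ∈ S.erase q, V (some p) * sy q p + V none * ll q.1 = 0 := fun q hqS h0 =>
    rowS hqS h0 V hm (hq q)
  have hr1 : ∀ q ∈ S, aa q.1 = 1 → V (some q) = 0 := fun q hqS h1 => rowS1 hqS h1 V hm (hq q)
  -- the elements `V q`
  have hrow : ∀ i ∈ S, (xW j i + ∑ p ∈ S.erase i, sW i p) * V (some i) +
      ∑ p ∈ S.erase i, sW i p * V (some p) + lW i * V none = 0 := by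
    intro i hi
    rcases h01 (aa i.1) with h0 | h1
    · have h2 := hr0 i hi h0
      have e1 : ∀ p, sW i p = sy i p := fun p => if_pos h0
      have e2 : xW j i = rr i.1 + j * ll i.1 := if_pos h0
      have e3 : lW i = ll i.1 := if_pos h0
      simp only [e1, e2, e3]
      rw [mul_comm _ (V (some i)), mul_comm (ll i.1)]
      have e4 : ∑ p ∈ S.erase i, sy i p * V (some p) = ∑ p ∈ S.erase i, V (some p) * sy i p :=
        sum_congr rfl fun p _ => mul_comm _ _
      rw [e4]
      exact h2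
    · have hn0 : ¬ aa i.1 = 0 := by
        rw [h1]
        exact one_ne_zero
      have e1 : ∀ p, sW i p = 0 := fun p => if_neg hn0
      have e3 : lW i = 0 := if_neg hn0
      simp only [e1, e3]
      rw [hr1 i hi h1]
      simp
  -- the product
  obtain ⟨y, hy⟩ : ∃ y, y = ∏ q ∈ S, q.1 ^ (V (some q)).val := ⟨_, rfl⟩
  have hgy : (-1) ^ n.val * gpr gq (insertNone S) V = (-1) ^ n.val * lam ^ (V none).val * y := by
    rw [gpr, prod_insertNone, hy, mul_assoc]
    rfl
  have hqv : ∀ q : Pg, ∀ e : ZMod 2, Pr (q.1 ^ e.val) ∧ aa (q.1 ^ e.val) = e * aa q.1 ∧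
      ll (q.1 ^ e.val) = e * ll q.1 := by
    intro q e
    rcases h01 e with rfl | rfl
    · rw [ZMod.val_zero, pow_zero, zero_mul, zero_mul]
      exact ⟨Pr.one, aa_one, ll_one⟩
    · rw [h1v, pow_one, one_mul, one_mul]
      exact ⟨q.2.2, rfl, rfl⟩
  have hyP : Pr y := by
    rw [hy]
    exact Pr.prod S _ fun q _ => (hqv q _).1
  have hyl : ll y = ∑ p ∈ S, lW p * V (some p) := by
    rw [hy, ll_prod S _ fun q _ => (hqv q _).1]
    refine sum_congr rfl fun q hqS => ?_
    rw [(hqv q _).2.2, lW]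
    rcases h01 (aa q.1) with h0 | h1
    · rw [if_pos h0, mul_comm]
    · rw [hr1 q hqS h1, zero_mul, mul_zero]
  have hlam : GLocS nuL (dW k j S : K8)
      (m ^ 2 * (((-1) ^ n.val * lam ^ (V none).val * y : 𝓞 K8) : K8)) := by
    rw [← hgy, ← ham]
    exact hloc (pv lam lam_prime)
  -- the end
  have hend : (∀ i ∈ S, V (some i) = 0) → V none = 0 → IsSquare a ∨ IsSquare (-a) := by
    intro h1 h2
    have h3 : gpr gq (insertNone S) V = 1 := by
      rw [gpr, prod_insertNone, h2, ZMod.val_zero, pow_zero, one_mul]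
      refine prod_eq_one fun q hqS => ?_
      rw [h1 q hqS, ZMod.val_zero, pow_zero]
    rw [ham, h3, mul_one]
    rcases h01 n with rfl | rfl
    · left
      refine ⟨m, ?_⟩
      rw [ZMod.val_zero, pow_zero]
      push_cast
      ring
    · right
      refine ⟨m, ?_⟩
      rw [h1v, pow_one]
      push_cast
      ring
  by_cases hc : j = 0 ∨ AS S = 1
  · have hG' : (MM sW (xW j) S).det ≠ 0 := by
      rw [GW, if_pos hc] at hG
      exact hG
    have hv : V none = 0 := by
      refine lam_even (Pr_DD S) ?_ hyP hm hlam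
      rw [aa_DD]
      exact hc
    refine hend (MM_ker hG' fun i hi => ?_) hv
    have h1 := hrow i hi
    rwa [hv, mul_zero, add_zero] at h1
  · have hG' : (BB sW (xW 1) lW lW (k + lS S) S).det ≠ 0 := by
      rw [GW, if_neg hc] at hG
      exact hG
    rw [not_or] at hc
    have hj : j = 1 := (h01 j).resolve_left hc.1
    have hA : AS S = 0 := (h01 (AS S)).resolve_right hc.2
    subst hj
    have ed : dW k 1 S = (-1) ^ k.val * DD S := by
      rw [dW, h1v]
      norm_num
    rw [ed] at hlam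
    have hl := lam_row (Pr_DD S) (by rw [aa_DD]; exact hA) hyP hm hlam
    rw [hyl, ll_DD] at hl
    obtain ⟨h1, h2⟩ := BB_ker hG' (V := fun p => V (some p)) (v := V none) hrow (by
      rw [hl]
      exact CharTwo.add_self_eq_zero _)
    exact hend h1 h2

end

end Pool.Agent.Lib.MP_1a91b9_ntW.C
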